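import Pool.Agent.L7h3.MQ.Ct

/-!
# Local factors of the curves `y² = x³ + δ x` at the places not above two
-/

set_option autoImplicit false
set_option linter.unusedSectionVars false

open NumberField IsDedekindDomain

namespace Pool.Agent.L7h3.MR

open scoped Classical
open WithZero
open Pool.Agent.L7h3.MQ
open Pool.Agent.Y682 (vv vv_coe)
open Pool.Agent.W189.NF (aV eV redMap Ov mem_max_iff finite_res card_res redMap_eq_zero aLoc eLoc
  redMap_surjective)
open Pool.Agent.H921R2.TatePole (nm two_le_nm)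
open Pool.Agent.Y696 (HBd)
open Pool.Agent.Y715.Z
open Pool.Agent.Y699 (cr4 cr4_Δ cr4_map cnt4)
open Pool.Agent.Y698 (AP AP_equiv v_unit vc_int card_point)

section loc

open WeierstrassCurve IsDiscreteValuationRing

variable (R : Type) [CommRing R] [IsDomain R] [IsDiscreteValuationRing R] {L : Type}
  [Field L] [Algebra R L] [IsFractionRing R L]

/-- a curve that is isomorphic to one with good integral equation -/
theorem min_good' {W₀ : WeierstrassCurve R} (hΔ : IsUnit W₀.Δ) {W : WeierstrassCurve L}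
    {D : VariableChange L} (hW : W = D • W₀.map (algebraMap R L)) :
    (W.minimal R).HasGoodReduction R := by
  set W1 : WeierstrassCurve L := W₀.map (algebraMap R L) with hW1
  have hWint : IsIntegral R W1 := ⟨⟨W₀, rfl⟩⟩
  have hvW : (maximalIdeal R).valuation L W1.Δ = 1 := by
    rw [hW1, map_Δ]
    exact v_unit R hΔ
  obtain ⟨C, hC⟩ : ∃ C : VariableChange L, W.minimal R = C • W := ⟨_, rfl⟩
  have hmin : IsMinimal R (W.minimal R) := inferInstance
  refine ⟨?_⟩
  obtain ⟨h1, h2⟩ := hmin.val_Δ_maximal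
  have e1 : (C * D)⁻¹ • W.minimal R = W1 := by
    rw [hC, hW, smul_smul C D W1, inv_smul_smul]
  have h3 := h2 (j := (C * D)⁻¹) (by simp only [e1]; exact hWint)
  simp only [e1, one_smul] at h3
  have hle : valuation_Δ_aux R (W.minimal R) ≤ valuation_Δ_aux R W1 := by
    rw [← Subtype.coe_le_coe, valuation_Δ_aux_eq_of_isIntegral R W1, hvW]
    exact (valuation_Δ_aux R (W.minimal R)).2
  have h4 := le_antisymm hle (h3 hle)
  have h5 := congrArg Subtype.val h4
  rw [valuation_Δ_aux_eq_of_isIntegral, valuation_Δ_aux_eq_of_isIntegral] at h5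
  rw [h5]
  exact hvW

/-- its local factor -/
theorem min_count' {W₀ : WeierstrassCurve R} (hΔ : IsUnit W₀.Δ) {W : WeierstrassCurve L}
    {D : VariableChange L} (hW : W = D • W₀.map (algebraMap R L))
    [Finite (IsLocalRing.ResidueField R)] :
    aLoc R W = (Nat.card (IsLocalRing.ResidueField R) : ℤ) -
      Nat.card (AP (W₀.map (IsLocalRing.residue R))) ∧
    eLoc R W = Nat.card (IsLocalRing.ResidueField R) := by
  have hg := min_good' R hΔ hW
  unfold aLoc eLoc
  rw [if_pos hg, if_pos hg]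
  refine ⟨?_, rfl⟩
  obtain ⟨C, hC⟩ : ∃ C : VariableChange L, W.minimal R = C • W := ⟨_, rfl⟩
  have h1 : ((W.minimal R).integralModel R).map (algebraMap R L) =
      (C * D) • W₀.map (algebraMap R L) := by
    have := baseChange_integralModel_eq R (W.minimal R)
    rw [← smul_smul, ← hW, ← hC]
    exact this
  have h2 : IsUnit ((W.minimal R).integralModel R).Δ := by
    have h3 := hg.goodReduction
    rw [← integralModel_Δ_eq R (W.minimal R),
      IsDedekindDomain.HeightOneSpectrum.valuation_eq_one_iff_notMem] at h3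
    by_contra h4
    exact h3 ((IsLocalRing.mem_maximalIdeal _).2 h4)
  obtain ⟨C₀, hC₀⟩ := vc_int R hΔ h2 h1
  have h3 : (W.minimal R).reduction R = (C₀.map (IsLocalRing.residue R)) •
      (W₀.map (IsLocalRing.residue R)) := by
    unfold WeierstrassCurve.reduction
    rw [hC₀, ← WeierstrassCurve.map_variableChange]
  have h4 : ((W.minimal R).reduction R).Δ ≠ 0 := by
    unfold WeierstrassCurve.reduction
    rw [map_Δ]
    exact (h2.map _).ne_zero
  rw [card_point _ h4, h3, Nat.card_congr (AP_equiv _ _)]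
  push_cast
  ring

end loc

section place

variable {K : Type} [Field K] [NumberField K]

lemma q4_scale {L : Type} [Field L] (δ : L) {c : L} (hc : c ≠ 0) :
    q4 (δ * c ^ 4) = (⟨(Units.mk0 c hc)⁻¹, 0, 0, 0⟩ : WeierstrassCurve.VariableChange L) • q4 δ := by
  ext
  · simp [q4, WeierstrassCurve.variableChange_a₁]
  · simp [q4, WeierstrassCurve.variableChange_a₂]
  · simp [q4, WeierstrassCurve.variableChange_a₃]
  · simp [q4, WeierstrassCurve.variableChange_a₄]
    ring
  · simp [q4, WeierstrassCurve.variableChange_a₆]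

/-- the local factor of a twist by a fourth power -/
theorem scale_place {v : HeightOneSpectrum (𝓞 K)} {δ : 𝓞 K} (h : (2 : 𝓞 K) * δ ∉ v.asIdeal) {c : K}
    (hc : c ≠ 0) :
    aV (q4 ((δ : K) * c ^ 4)) v = aV (q4 (δ : K)) v ∧
      eV (q4 ((δ : K) * c ^ 4)) v = eV (q4 (δ : K)) v := by
  have hbc : ∀ x : K, (q4 x).baseChange (v.adicCompletion K) =
      q4 (algebraMap K (v.adicCompletion K) x) := fun x => q4_map _ _
  have hfin := finite_res v
  have hΔ : (cr4 δ).Δ ∉ v.asIdeal := by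
    rw [cr4_Δ]
    intro h1
    have h2 : (2 * δ) ^ 6 ∈ v.asIdeal := by
      have e1 : (2 * δ) ^ 6 = (-64 * δ ^ 3) * (-δ ^ 3) := by ring
      rw [e1]
      exact Ideal.mul_mem_right _ _ h1
    exact h (v.isPrime.mem_of_pow_mem 6 h2)
  have hunit : IsUnit ((cr4 (algebraMap (𝓞 K) (Ov v) δ)).Δ) := by
    have h3 := isUnit_of_notMem' hΔ
    rw [cr4_Δ] at h3 ⊢
    rw [map_mul, map_neg, map_ofNat, map_pow] at h3
    exact h3
  have hc' : algebraMap K (v.adicCompletion K) c ≠ 0 := by rwa [Ne, map_eq_zero]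
  obtain ⟨c1, c2⟩ := min_count' (v.adicCompletionIntegers K) hunit
    (W := (q4 ((δ : K) * c ^ 4)).baseChange (v.adicCompletion K))
    (D := ⟨(Units.mk0 _ hc')⁻¹, 0, 0, 0⟩) (by
      rw [hbc, cr4_mapL, coe_comp', map_mul, map_pow]
      exact q4_scale _ hc')
  obtain ⟨c3, c4⟩ := min_count' (v.adicCompletionIntegers K) hunit
    (W := (q4 (δ : K)).baseChange (v.adicCompletion K)) (D := 1) (by
      rw [one_smul, hbc, cr4_mapL, coe_comp'])
  unfold aV eV
  exact ⟨c1.trans c3.symm, c2.trans c4.symm⟩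

lemma exists_unif (v : HeightOneSpectrum (𝓞 K)) :
    ∃ ϖ : K, ϖ ≠ 0 ∧ v.valuation K ϖ = exp (-1 : ℤ) := by
  obtain ⟨ϖ, h⟩ := v.valuation_exists_uniformizer K
  refine ⟨ϖ, ?_, h⟩
  rintro rfl
  rw [map_zero] at h
  exact exp_ne_zero h.symm

lemma clear_denom (v : HeightOneSpectrum (𝓞 K)) {x : K} (hx : v.valuation K x ≤ 1) :
    ∃ y z : 𝓞 K, y ∉ v.asIdeal ∧ (y : K) * x = (z : K) := by
  obtain ⟨a, b, hb, hab⟩ := IsFractionRing.div_surjective (A := 𝓞 K) x
  have hb0 : b ≠ 0 := nonZeroDivisors.ne_zero hb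
  have hbK : (b : K) ≠ 0 := by
    intro h
    exact hb0 (RingOfIntegers.ext h)
  have hI : (Ideal.span {b} : Ideal (𝓞 K)) ≠ 0 := by
    rw [Ne, Ideal.zero_eq_bot, Ideal.span_singleton_eq_bot]
    exact hb0
  have hP : Prime v.asIdeal := v.prime
  obtain ⟨J, hJ, hnJ⟩ := (FiniteMultiplicity.of_prime_left hP hI).exists_eq_pow_mul_and_not_dvd
  generalize multiplicity v.asIdeal (Ideal.span {b} : Ideal (𝓞 K)) = n at hJ
  have hnle : ¬ J ≤ v.asIdeal := by
    intro h
    exact hnJ (Ideal.dvd_iff_le.2 h)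
  obtain ⟨y, hyJ, hyP⟩ := SetLike.not_le_iff_exists.1 hnle
  have hle : v.asIdeal ^ n * J ≤ v.asIdeal ^ n := Ideal.mul_le_left
  have hbn : b ∈ v.asIdeal ^ n := by
    have h1 : b ∈ Ideal.span {b} := Ideal.mem_span_singleton_self b
    rw [hJ] at h1
    exact hle h1
  have hvb : v.intValuation b ≤ exp (-(n : ℤ)) := (v.intValuation_le_pow_iff_mem b n).2 hbn
  have hva : v.intValuation a ≤ exp (-(n : ℤ)) := by
    refine le_trans ?_ hvb
    rw [← hab, map_div₀] at hx
    have h2 : v.valuation K (algebraMap (𝓞 K) K b) ≠ 0 := (Valuation.ne_zero_iff _).2 hbK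
    rw [div_le_one₀ (zero_lt_iff.2 h2), HeightOneSpectrum.valuation_of_algebraMap,
      HeightOneSpectrum.valuation_of_algebraMap] at hx
    exact hx
  have han : a ∈ v.asIdeal ^ n := (v.intValuation_le_pow_iff_mem a n).1 hva
  have h3 : y * a ∈ Ideal.span {b} := by
    rw [hJ, mul_comm y a]
    exact Ideal.mul_mem_mul han hyJ
  obtain ⟨z, hz⟩ := Ideal.mem_span_singleton'.1 h3
  refine ⟨y, z, hyP, ?_⟩
  rw [← hab]
  have h4 : (z : K) * (b : K) = (y : K) * (a : K) := by
    have := congrArg (fun w : 𝓞 K => (w : K)) hz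
    exact this
  show (y : K) * ((a : K) / (b : K)) = (z : K)
  rw [← mul_div_assoc, ← h4, mul_div_cancel_right₀ _ hbK]

/-- an element of value one is the quotient of two integers prime to the place -/
lemma unit_quot (v : HeightOneSpectrum (𝓞 K)) {x : K} (hx : v.valuation K x = 1) :
    ∃ a b : 𝓞 K, a ∉ v.asIdeal ∧ b ∉ v.asIdeal ∧ x = (a : K) / (b : K) := by
  obtain ⟨y, z, hy, hyz⟩ := clear_denom v hx.le
  have h1 : v.valuation K (y : K) = 1 :=
    (HeightOneSpectrum.valuation_eq_one_iff_notMem (K := K) (v := v) (r := y)).2 hy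
  have h2 : v.valuation K (z : K) = 1 := by rw [← hyz, map_mul, h1, hx, one_mul]
  have hz : z ∉ v.asIdeal := (HeightOneSpectrum.valuation_eq_one_iff_notMem (K := K) (v := v) (r := z)).1 h2
  have hy0 : (y : K) ≠ 0 := by
    intro h
    rw [h, map_zero] at h1
    exact zero_ne_one h1
  exact ⟨z, y, hz, hy, by rw [← hyz]; field_simp⟩

/-- normal form modulo `n`-th powers -/
lemma norm_form (v : HeightOneSpectrum (𝓞 K)) {n : ℕ} (hn : 1 ≤ n) {x : K} {k : ℤ}
    (hx : v.valuation K x = exp (-(n * k))) :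
    ∃ (a : 𝓞 K) (c : K), a ∉ v.asIdeal ∧ c ≠ 0 ∧ x = (a : K) * c ^ n := by
  obtain ⟨ϖ, h0, hϖ⟩ := exists_unif v
  have h1 : v.valuation K (x / (ϖ ^ k) ^ n) = 1 := by
    rw [map_div₀, hx, map_pow, map_zpow₀, hϖ, ← exp_zsmul, ← exp_nsmul, ← exp_sub, exp_eq_one]
    simp
  obtain ⟨a, b, ha, hb, hab⟩ := unit_quot v h1
  have hb0 : (b : K) ≠ 0 := by
    intro h
    apply hb
    have : b = 0 := RingOfIntegers.ext h
    rw [this]
    exact v.asIdeal.zero_mem
  have hϖk : (ϖ ^ k) ≠ 0 := zpow_ne_zero _ h0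
  refine ⟨a * b ^ (n - 1), ϖ ^ k / b, ?_, div_ne_zero hϖk hb0, ?_⟩
  · intro h
    rcases v.isPrime.mem_or_mem h with h | h
    · exact ha h
    · exact hb (v.isPrime.mem_of_pow_mem _ h)
  · rw [div_eq_iff (pow_ne_zero _ hϖk)] at hab
    rw [hab]
    have e1 : (((a * b ^ (n - 1) : 𝓞 K)) : K) = (a : K) * (b : K) ^ (n - 1) := rfl
    have e2 : (b : K) ^ n = (b : K) ^ (n - 1) * b := by
      rw [← pow_succ]
      congr 1
      omega
    rw [e1, div_pow, e2]
    field_simp

lemma exists_val (v : HeightOneSpectrum (𝓞 K)) {x : K} (hx : x ≠ 0) :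
    ∃ m : ℤ, v.valuation K x = exp (-m) := by
  have h : v.valuation K x ≠ 0 := (Valuation.ne_zero_iff _).2 hx
  refine ⟨-WithZero.log (v.valuation K x), ?_⟩
  rw [neg_neg, WithZero.exp_log h]

lemma two_not_mem {v : HeightOneSpectrum (𝓞 K)} {a : 𝓞 K} (h2 : (2 : 𝓞 K) ∉ v.asIdeal)
    (ha : a ∉ v.asIdeal) : (2 : 𝓞 K) * a ∉ v.asIdeal := fun h =>
  (v.isPrime.mem_or_mem h).elim h2 ha

lemma val_two_one {v : HeightOneSpectrum (𝓞 K)} (h2 : (2 : 𝓞 K) ∉ v.asIdeal) :
    v.valuation K 2 = 1 := by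
  have := (HeightOneSpectrum.valuation_eq_one_iff_notMem (K := K) (v := v) (r := (2 : 𝓞 K))).2 h2
  rw [map_ofNat] at this
  exact this

/-- the Hasse bound at all the places not above two -/
theorem hbd_gen {v : HeightOneSpectrum (𝓞 K)} (h2 : (2 : 𝓞 K) ∉ v.asIdeal) {δ : K} (hδ : δ ≠ 0) :
    HBd (aV (q4 δ) v) (eV (q4 δ) v) (nm v) := by
  obtain ⟨m, hm⟩ := exists_val v hδ
  by_cases h4 : m % 4 = 0
  · obtain ⟨k, hk⟩ : ∃ k, m = 4 * k := ⟨m / 4, by omega⟩
    obtain ⟨a, c, ha, hc, hac⟩ := norm_form v (n := 4) (by norm_num) (x := δ) (k := k) (by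
      rw [hm, hk]; rfl)
    obtain ⟨h5, h6⟩ := scale_place (two_not_mem h2 ha) hc
    rw [hac, h5, h6]
    exact good_hbd (two_not_mem h2 ha)
  · exact Or.inl (bad_odd (val_two_one h2) hm h4)

end place

end Pool.Agent.L7h3.MR
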