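import Pool.Agent.L7h3.MQ.Ad

/-!
# Descent and non-vanishing with additional primes of even exponents
-/

set_option autoImplicit false
set_option linter.unusedSectionVars false
set_option linter.unusedSimpArgs false

open NumberField IsDedekindDomain
open Filter Complex
open scoped Topology PeriodPair

namespace Pool.Agent.L7h3.MR

open Pool.Agent.L7h3.MQ
open Pool.Agent.Y699
open H385 (ZI RQ im1 nrm)
open Pool.Agent.W164.RC (tc_mul tc_star two2 prim_iff_dvd unit_norm unit_cases Ip Ip_spec)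
open Pool.Agent.H304R2.EC.A1 (prim prim_mul prim_cancel prim_one prim_norm_odd prim_star eq_one_of_prim
  norm_def' re_mul' im_mul' eq_of_dvd prim_ne_zero exists_prim)
open Pool.Agent.H304R3.HK (tc HC LH bH)
open Av (AV Set2)

/-- an anisotropic form -/
lemma aniso {ρ P : ZI} (hρ : Prime ρ) (hP : ∀ x : ZI, ¬ ρ ∣ x ^ 2 - P) {A C : ZI} (hA : A ≠ 0)
    (hC : C ≠ 0) : ∃ (n : ℕ) (G : ZI), A ^ 2 + P * C ^ 2 = ρ ^ (2 * n) * G ∧ ¬ ρ ∣ G := by
  -- the basic fact
  have key : ∀ a c : ZI, ρ ∣ a ^ 2 + P * c ^ 2 → ρ ∣ a ∧ ρ ∣ c := by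
    intro a c h
    have hc : ρ ∣ c := by
      by_contra hc
      obtain ⟨x, y, hxy⟩ := (hρ.irreducible.coprime_iff_not_dvd).2 hc
      apply hP (im1 * a * y)
      have hi : (im1 : ZI) ^ 2 = -1 := by decide
      have e1 : (im1 * a * y) ^ 2 - P = -(y ^ 2) * (a ^ 2 + P * c ^ 2) + ρ * (P * x * (-1 - c * y)) := by
        have e2 : y * c = 1 - x * ρ := by linear_combination hxy
        linear_combination (a ^ 2 * y ^ 2) * hi + (P * (y * c + 1)) * e2
      rw [e1]
      exact dvd_add (h.mul_left _) (dvd_mul_right _ _)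
    refine ⟨?_, hc⟩
    have h1 : ρ ∣ P * c ^ 2 := (dvd_pow hc two_ne_zero).mul_left _
    have h2 := dvd_sub h h1
    rw [add_sub_cancel_right] at h2
    exact hρ.dvd_of_dvd_pow h2
  obtain ⟨A', a1, a2⟩ := (FiniteMultiplicity.of_prime_left hρ hA).exists_eq_pow_mul_and_not_dvd
  obtain ⟨C', c1, c2⟩ := (FiniteMultiplicity.of_prime_left hρ hC).exists_eq_pow_mul_and_not_dvd
  generalize multiplicity ρ A = a at a1
  generalize multiplicity ρ C = c at c1
  rcases le_total a c with h | h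
  · obtain ⟨k, rfl⟩ : ∃ k, c = a + k := ⟨c - a, by omega⟩
    refine ⟨a, A' ^ 2 + P * (ρ ^ k * C') ^ 2, ?_, fun h' => a2 (key _ _ h').1⟩
    rw [a1, c1]; ring
  · obtain ⟨k, rfl⟩ : ∃ k, a = c + k := ⟨a - c, by omega⟩
    refine ⟨c, (ρ ^ k * A') ^ 2 + P * C' ^ 2, ?_, fun h' => c2 (key _ _ h').2⟩
    rw [a1, c1]; ring

section descent

variable {F : Type} [Field F] [Algebra ZI F] [IsFractionRing ZI F]

variable {ι : Type} [DecidableEq ι] {pr : ι → ZI}

/-- integral form of a point on `y² = x³ + B x`, `B = P T²` with `P` squarefree -/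
theorem decompR (hp : PF pr) (V : Finset ι) {T : ZI} (hT0 : T ≠ 0)
    (hT : ∀ ρ : ZI, Prime ρ → ρ ∣ T → ρ ∣ DD pr V ∨ ∀ x : ZI, ¬ ρ ∣ x ^ 2 - DD pr V)
    {x y : F} (hy : y ≠ 0)
    (hxy : y ^ 2 = x ^ 3 + algebraMap ZI F (DD pr V * T ^ 2) * x) :
    ∃ (u : ZI) (S : Finset ι) (f b Y : ZI), u.norm = 1 ∧ S ⊆ V ∧ IsCoprime f b ∧ f ≠ 0 ∧ b ≠ 0 ∧
      x = algebraMap ZI F (u * DD pr S) * (algebraMap ZI F f / algebraMap ZI F b) ^ 2 ∧
      Y ^ 2 = u * (u ^ 2 * DD pr S * f ^ 4 + DD pr (V \ S) * T ^ 2 * b ^ 4) := by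
  classical
  set B : ZI := DD pr V * T ^ 2 with hB
  have hx : x ≠ 0 := by
    rintro rfl
    apply hy
    have : y ^ 2 = 0 := by rw [hxy]; ring
    exact pow_eq_zero_iff (by norm_num) |>.1 this
  obtain ⟨a, m, hm, hxa⟩ := IsFractionRing.div_surjective (A := ZI) x
  have hm0 : m ≠ 0 := nonZeroDivisors.ne_zero hm
  have ha0 : a ≠ 0 := by
    rintro rfl
    apply hx
    rw [← hxa, map_zero, zero_div]
  have hc0 : a * m ≠ 0 := mul_ne_zero ha0 hm0
  obtain ⟨d, h, hdh, hd⟩ := sqf_decomp _ (a * m) hc0 le_rfl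
  have hh0 : h ≠ 0 := by
    rintro rfl
    apply hc0
    rw [hdh]; ring
  have hd0 : d ≠ 0 := hd.ne_zero
  obtain ⟨f, b', hfb, hfb'⟩ := IsFractionRing.exists_reduced_fraction (A := ZI)
    (algebraMap ZI F h / algebraMap ZI F m)
  set b : ZI := (b' : ZI) with hb
  have hb0 : b ≠ 0 := nonZeroDivisors.ne_zero b'.2
  have hw : algebraMap ZI F h / algebraMap ZI F m = algebraMap ZI F f / algebraMap ZI F b := by
    rw [← hfb', IsFractionRing.mk'_eq_div]
  have hcop : IsCoprime f b := hfb.isCoprime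
  have hAm := A_ne (F := F) hm0
  have hAb := A_ne (F := F) hb0
  have hAh := A_ne (F := F) hh0
  have hf0 : f ≠ 0 := by
    rintro rfl
    rw [map_zero, zero_div] at hw
    exact (div_ne_zero hAh hAm) hw
  have hAf := A_ne (F := F) hf0
  have hxd : x = algebraMap ZI F d * (algebraMap ZI F f / algebraMap ZI F b) ^ 2 := by
    rw [← hw, ← hxa]
    have h1 := congrArg (algebraMap ZI F) hdh
    rw [map_mul, map_mul, map_pow] at h1
    field_simp
    linear_combination h1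
  -- the integral equation
  obtain ⟨Y, hY⟩ : ∃ Y : ZI, Y ^ 2 = d * (d ^ 2 * f ^ 4 + B * b ^ 4) := by
    have h1 : (y * (algebraMap ZI F b) ^ 3 / algebraMap ZI F f) ^ 2 =
        algebraMap ZI F (d * (d ^ 2 * f ^ 4 + B * b ^ 4)) := by
      rw [div_pow, mul_pow, hxy, hxd]
      simp only [map_mul, map_add, map_pow]
      field_simp
    obtain ⟨Y, hY⟩ := sq_int h1
    refine ⟨Y, ?_⟩
    apply A_inj (F := F)
    rw [map_pow, hY, h1]
  have hprime : ∀ ρ : ZI, Prime ρ → ρ ∣ d → ρ ∣ B := by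
    intro ρ hρ hρd
    by_contra hρD
    obtain ⟨d', hd'⟩ := hρd
    have hnd : ¬ ρ ∣ d' := by
      rintro ⟨e, he⟩
      exact hρ.not_isUnit (hd ρ ⟨e, by rw [hd', he]; ring⟩)
    have h1 : ρ ∣ Y := by
      apply hρ.dvd_of_dvd_pow (n := 2)
      rw [hY, hd']
      exact (dvd_mul_right _ _).mul_right _
    obtain ⟨Y1, hY1⟩ := h1
    have h2 : ρ * Y1 ^ 2 = d' * (d ^ 2 * f ^ 4 + B * b ^ 4) := by
      apply mul_left_cancel₀ hρ.ne_zero
      have : ρ * (d' * (d ^ 2 * f ^ 4 + B * b ^ 4)) = Y ^ 2 := by rw [hY, hd']; ring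
      rw [this, hY1]
      ring
    have h3 : ρ ∣ b := by
      have h4 : ρ ∣ d' * (d ^ 2 * f ^ 4 + B * b ^ 4) := by rw [← h2]; exact dvd_mul_right _ _
      have h5 := (hρ.dvd_or_dvd h4).resolve_left hnd
      have h6 : ρ ∣ B * b ^ 4 := by
        have h7 : ρ ∣ d ^ 2 * f ^ 4 := by
          rw [hd']
          exact (dvd_pow (dvd_mul_right ρ d') (by norm_num)).mul_right _
        have h8 := dvd_sub h5 h7
        rwa [add_sub_cancel_left] at h8
      rcases hρ.dvd_or_dvd h6 with h7 | h7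
      · exact absurd h7 hρD
      · exact hρ.dvd_of_dvd_pow h7
    obtain ⟨b1, hb1⟩ := h3
    have hnf : ¬ ρ ∣ f := by
      intro h4
      exact hρ.not_isUnit (hcop.isUnit_of_dvd' h4 ⟨b1, hb1⟩)
    have h4 : Y1 ^ 2 = ρ * (d' * (d' ^ 2 * f ^ 4 + ρ ^ 2 * (B * b1 ^ 4))) := by
      apply mul_left_cancel₀ hρ.ne_zero
      rw [h2, hd', hb1]
      ring
    have h5 : ρ ∣ Y1 := hρ.dvd_of_dvd_pow (n := 2) (by rw [h4]; exact dvd_mul_right _ _)
    obtain ⟨Y2, hY2⟩ := h5
    have h6 : ρ ∣ d' * (d' ^ 2 * f ^ 4 + ρ ^ 2 * (B * b1 ^ 4)) := by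
      refine ⟨Y2 ^ 2, ?_⟩
      apply mul_left_cancel₀ hρ.ne_zero
      rw [← h4, hY2]
      ring
    have h7 := (hρ.dvd_or_dvd h6).resolve_left hnd
    have h8 : ρ ∣ d' ^ 2 * f ^ 4 := by
      have h9 : ρ ∣ ρ ^ 2 * (B * b1 ^ 4) := (dvd_pow_self ρ (by norm_num)).mul_right _
      have := dvd_sub h7 h9
      rwa [add_sub_cancel_right] at this
    rcases hρ.dvd_or_dvd h8 with h9 | h9
    · exact hnd (hρ.dvd_of_dvd_pow h9)
    · exact hnf (hρ.dvd_of_dvd_pow h9)
  have hprime' : ∀ ρ : ZI, Prime ρ → ρ ∣ d → ρ ∣ DD pr V := by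
    intro ρ hρ hρd
    rcases hρ.dvd_or_dvd (hprime ρ hρ hρd) with h1 | h1
    · exact h1
    · rcases hT ρ hρ (hρ.dvd_of_dvd_pow h1) with h2 | h2
      · exact h2
      · exfalso
        obtain ⟨d', hd'⟩ := hρd
        have hnd : ¬ ρ ∣ d' := by
          rintro ⟨e, he⟩
          exact hρ.not_isUnit (hd ρ ⟨e, by rw [hd', he]; ring⟩)
        obtain ⟨n, G, hG, hnG⟩ := aniso hρ h2 (A := d * f ^ 2) (C := T * b ^ 2)
          (mul_ne_zero hd0 (pow_ne_zero 2 hf0)) (mul_ne_zero hT0 (pow_ne_zero 2 hb0))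
        have h3 : Y ^ 2 = ρ ^ (2 * n + 1) * (d' * G) := by
          have e1 : d * (d ^ 2 * f ^ 4 + B * b ^ 4) =
              d * ((d * f ^ 2) ^ 2 + DD pr V * (T * b ^ 2) ^ 2) := by rw [hB]; ring
          rw [hY, e1, hG, hd', pow_succ]
          ring
        obtain ⟨s, Y', h4, -⟩ := sq_pow hρ h3 (fun h => (hρ.dvd_or_dvd h).elim hnd hnG)
        omega
  -- the set of primes
  set S := V.filter (fun i => pr i ∣ d) with hS
  have hSV : S ⊆ V := Finset.filter_subset _ _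
  have hSd : DD pr S ∣ d := by
    unfold DD
    refine Finset.prod_dvd_of_coprime ?_ ?_
    · intro i _ j _ hij
      exact (hp.pp i).cop (hp.pp j) fun h => hij (hp.inj h)
    · intro i hi
      exact (Finset.mem_filter.1 hi).2
  obtain ⟨u, hu⟩ := hSd
  have huu : IsUnit u := by
    by_contra hnu
    have hu0 : u ≠ 0 := by
      rintro rfl
      exact hd0 (by rw [hu, mul_zero])
    obtain ⟨ρ, hρ, hρu⟩ := WfDvdMonoid.exists_irreducible_factor hnu hu0
    have hρ' : Prime ρ := irreducible_iff_prime.1 hρ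
    have h1 : ρ ∣ d := by rw [hu]; exact hρu.mul_left _
    have h2 := hprime' ρ hρ' h1
    unfold DD at h2
    obtain ⟨i, hi, hρi⟩ := (hρ'.dvd_finsetProd_iff _).1 h2
    have h3 : pr i ∣ ρ := by
      obtain ⟨c, hc⟩ := hρi
      rcases (hp.pp i).pr.irreducible.isUnit_or_isUnit hc with h4 | h4
      · exact absurd h4 hρ'.not_isUnit
      · obtain ⟨c', hc'⟩ := h4.exists_right_inv
        exact ⟨c', by rw [hc, mul_assoc, hc', mul_one]⟩
    have h4 : i ∈ S := Finset.mem_filter.2 ⟨hi, h3.trans h1⟩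
    have h5 : pr i * pr i ∣ d := by
      rw [hu]
      refine mul_dvd_mul ?_ (h3.trans hρu)
      unfold DD
      exact Finset.dvd_prod_of_mem _ h4
    exact (hp.pp i).pr.not_isUnit (hd _ h5)
  have hun : u.norm = 1 := by
    obtain ⟨e, rfl⟩ := huu
    exact unit_norm e
  have hDV : DD pr V = DD pr S * DD pr (V \ S) := by
    unfold DD
    rw [mul_comm]
    exact (Finset.prod_sdiff hSV).symm
  have hP0 : DD pr S ≠ 0 := by
    rintro h
    exact hd0 (by rw [hu, h, zero_mul])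
  have hPsq : Squarefree (DD pr S) := hd.squarefree_of_dvd ⟨u, hu⟩
  have e1 : Y ^ 2 = DD pr S ^ 2 * (u * (u ^ 2 * DD pr S * f ^ 4 + DD pr (V \ S) * T ^ 2 * b ^ 4)) := by
    rw [hY, hB, hDV, hu]; ring
  have h1 : DD pr S ∣ Y := by
    rw [← hPsq.dvd_pow_iff_dvd (n := 2) (by norm_num), e1]
    exact (dvd_pow_self _ (by norm_num)).mul_right _
  obtain ⟨Y1, hY1⟩ := h1
  refine ⟨u, S, f, b, Y1, hun, hSV, hcop, hf0, hb0, ?_, ?_⟩
  · rw [hxd, hu, mul_comm u]
  · apply mul_left_cancel₀ (pow_ne_zero 2 hP0)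
    rw [← e1, hY1]
    ring


variable [Fintype ι]

theorem square_classR (hp : PF pr) {V : Finset ι} (hw : ∑ i ∈ V, wt pr i = 1)
    (hker : ∀ z : ι → ZMod 2, (∀ v ∈ V, ∑ u ∈ V, em pr u v * (z u + z v) = 0) →
      ∀ u ∈ V, ∀ v ∈ V, z u = z v) {T : ZI} (hT0 : T ≠ 0)
    (hT : ∀ ρ : ZI, Prime ρ → ρ ∣ T → ρ ∣ DD pr V ∨ ∀ x : ZI, ¬ ρ ∣ x ^ 2 - DD pr V) {x y : F} (hy : y ≠ 0)
    (hxy : y ^ 2 = x ^ 3 + algebraMap ZI F (DD pr V * T ^ 2) * x) :
    ∃ w : F, x = w ^ 2 ∨ x = algebraMap ZI F (DD pr V * T ^ 2) * w ^ 2 := by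
  obtain ⟨u, S, f, b, Y, hu, hSV, hcop, hf0, hb0, hx, hE⟩ := decompR hp V hT0 hT hy hxy
  set z : ι → ZMod 2 := fun i => if i ∈ S then 1 else 0 with hz
  have hloc : ∀ v ∈ V, ∑ i ∈ V, em pr i v * (z i + z v) = ue u * wt pr v := by
    intro v hv
    obtain ⟨h1, h2⟩ := local_condE hp V hT0 hu hf0 hb0 hE hv
    have hsum : ∀ a b : ZMod 2, a + b = 0 → b = a := by decide
    by_cases hvS : v ∈ S
    · have h3 := h2 hvS
      rw [qr_unit_sg hp v hu, qr_DD_sg hp (V \ S) (fun h => (Finset.mem_sdiff.1 h).2 hvS), ← sg_add] at h3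
      have h4 := hsum _ _ (sg_eq_one h3)
      rw [← h4, ← Finset.sum_sdiff hSV]
      have h5 : ∑ i ∈ S, em pr i v * (z i + z v) = 0 := by
        refine Finset.sum_eq_zero fun i hi => ?_
        rw [hz]
        simp only [if_pos hi, if_pos hvS]
        have : (1 : ZMod 2) + 1 = 0 := by decide
        rw [this, mul_zero]
      rw [h5, add_zero]
      refine Finset.sum_congr rfl fun i hi => ?_
      rw [hz]
      simp only [if_neg (Finset.mem_sdiff.1 hi).2, if_pos hvS, zero_add, mul_one]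
    · have h3 := h1 hvS
      rw [qr_unit_sg hp v hu, qr_DD_sg hp S hvS, ← sg_add] at h3
      have h4 := hsum _ _ (sg_eq_one h3)
      rw [← h4, ← Finset.sum_sdiff hSV]
      have h5 : ∑ i ∈ V \ S, em pr i v * (z i + z v) = 0 := by
        refine Finset.sum_eq_zero fun i hi => ?_
        rw [hz]
        simp only [if_neg (Finset.mem_sdiff.1 hi).2, if_neg hvS, zero_add, mul_zero]
      rw [h5, zero_add]
      refine Finset.sum_congr rfl fun i hi => ?_
      rw [hz]
      simp only [if_pos hi, if_neg hvS, add_zero, mul_one]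
  have hue : ue u = 0 := by
    have h1 : ∑ v ∈ V, ∑ i ∈ V, em pr i v * (z i + z v) = ue u := by
      rw [Finset.sum_congr rfl hloc, ← Finset.mul_sum, hw, mul_one]
    rw [← h1]
    have h2 : ∑ v ∈ V, ∑ i ∈ V, em pr i v * (z i + z v) =
        ∑ v ∈ V, ∑ i ∈ V, em pr i v * z i + ∑ v ∈ V, ∑ i ∈ V, em pr i v * z v := by
      rw [← Finset.sum_add_distrib]
      refine Finset.sum_congr rfl fun v _ => ?_
      rw [← Finset.sum_add_distrib]
      refine Finset.sum_congr rfl fun i _ => by ring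
    rw [h2]
    have h3 : ∑ v ∈ V, ∑ i ∈ V, em pr i v * z v = ∑ v ∈ V, ∑ i ∈ V, em pr i v * z i := by
      rw [Finset.sum_comm]
      refine Finset.sum_congr rfl fun v _ => Finset.sum_congr rfl fun i _ => by rw [em_symm hp]
    rw [h3]
    have : ∀ a : ZMod 2, a + a = 0 := by decide
    exact this _
  have hker' := hker z (fun v hv => by rw [hloc v hv, hue, zero_mul])
  -- the unit is a square
  obtain ⟨u0, hu0⟩ : ∃ u0 : ZI, u = u0 ^ 2 := by
    rcases unit_cases hu with h | h | h | h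
    · exact ⟨1, by rw [h]; ring⟩
    · exfalso
      rw [h] at hue
      revert hue
      unfold ue
      rw [if_neg (by decide)]
      decide
    · exact ⟨im1, h⟩
    · exfalso
      rw [h] at hue
      revert hue
      unfold ue
      rw [if_neg (by decide)]
      decide
  by_cases hS : S = ∅
  · refine ⟨algebraMap ZI F u0 * (algebraMap ZI F f / algebraMap ZI F b), ?_⟩
    left
    rw [hx, hS, hu0]
    unfold DD
    rw [Finset.prod_empty, mul_one, map_pow]
    ring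
  · refine ⟨algebraMap ZI F u0 * (algebraMap ZI F f / algebraMap ZI F b) / algebraMap ZI F T, ?_⟩
    right
    obtain ⟨s, hs⟩ := Finset.nonempty_iff_ne_empty.2 hS
    have hSV' : S = V := by
      apply Finset.Subset.antisymm hSV
      intro i hi
      have h1 := hker' i hi s (hSV hs)
      rw [hz] at h1
      simp only [if_pos hs] at h1
      by_contra hiS
      rw [if_neg hiS] at h1
      exact absurd h1 (by decide)
    have hAT := A_ne (F := F) hT0
    rw [hx, hSV', hu0, map_mul, map_pow, map_mul, map_pow]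
    field_simp

/-- **there are no points outside the two-torsion** (the parameter has norm `13` modulo `16`) -/
theorem no_pointsR (hp : PF pr) {V : Finset ι} (hw : ∑ i ∈ V, wt pr i = 1) {T : ZI}
    (hT0 : T ≠ 0) (hT : ∀ ρ : ZI, Prime ρ → ρ ∣ T → ρ ∣ DD pr V ∨ ∀ x : ZI, ¬ ρ ∣ x ^ 2 - DD pr V)
    (hprim : prim (DD pr V * T ^ 2))
    (hre : (DD pr V * T ^ 2).re % 8 = 3) (him : (DD pr V * T ^ 2).im % 4 = 2)
    (hker : ∀ z : ι → ZMod 2, (∀ v ∈ V, ∑ u ∈ V, em pr u v * (z u + z v) = 0) →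
      ∀ u ∈ V, ∀ v ∈ V, z u = z v) {x y : F}
    (hxy : y ^ 2 = x ^ 3 + algebraMap ZI F (DD pr V * T ^ 2) * x) : y = 0 := by
  set B : ZI := DD pr V * T ^ 2 with hBdef
  set D : F := algebraMap ZI F B with hD
  have hS := set2 (F := F) hprim
  rw [← hD] at hS
  set l : F := algebraMap ZI F pi1 with hl
  set j : F := algebraMap ZI F im1 with hj
  have hD0 := hS.D0
  have hl0 := hS.l0
  have hj0 := hS.j0
  have h20 := hS.two
  have hll := hS.ll
  have hjj := hS.jj
  have hav := hS.av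
  set X : Set F := {x | ∃ y : F, y ≠ 0 ∧ y ^ 2 = x ^ 3 + D * x} with hX
  have hx0 : ∀ x ∈ X, x ≠ 0 := by
    rintro x ⟨y, hy, hxy⟩ rfl
    apply hy
    have : y ^ 2 = 0 := by rw [hxy]; ring
    exact pow_eq_zero_iff (by norm_num) |>.1 this
  -- the valuation of the abscissa is not zero
  have hv0 : ∀ x ∈ X, vv F x ≠ 0 := by
    rintro x ⟨y, hy, hxy⟩ h0
    obtain ⟨a, b, ha, hb, hab⟩ := odd_quot (hx0 x ⟨y, hy, hxy⟩) h0
    have hb0 : b ≠ 0 := by
      intro h0
      exact hb (by rw [h0]; exact dvd_zero _)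
    have hAb := A_ne (F := F) hb0
    have h1 : (y * algebraMap ZI F b ^ 2) ^ 2 = algebraMap ZI F (a * b * (a ^ 2 + B * b ^ 2)) := by
      rw [mul_pow, hxy, hab]
      simp only [map_mul, map_add, map_pow]
      rw [← hD]
      field_simp
    obtain ⟨Z, hZ⟩ := sq_int h1
    refine no_unit' ha hb hre him (z := Z) ?_
    apply A_inj (F := F)
    rw [map_pow, hZ, h1]
  -- halving when the abscissa is a square
  have hhalf : ∀ x ∈ X, ∀ w : F, x = w ^ 2 → ∃ x' ∈ X, x'^ 2 + D = l ^ 2 * x' * x := by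
    rintro x hx w hxw
    have n0 := hx0 x hx
    obtain ⟨y, hy, hxy⟩ := hx
    have hw0 : w ≠ 0 := by
      rintro rfl
      apply n0
      rw [hxw]; ring
    set b : F := y / w with hb
    have hb2 : b ^ 2 = x ^ 2 + D := by
      rw [hb, div_pow, hxy, ← hxw]
      field_simp
    have hprod : (w ^ 2 + b) * (w ^ 2 - b) = -D := by
      rw [← hxw]
      linear_combination -hb2
    have hs0 : w ^ 2 + b ≠ 0 := by
      intro h
      rw [h, zero_mul] at hprod
      exact hD0 (neg_eq_zero.1 hprod.symm)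
    set x' : F := j * (w ^ 2 + b) with hx'
    have hx'0 : x' ≠ 0 := mul_ne_zero hj0 hs0
    have key : x' ^ 2 + D = l ^ 2 * x' * x := by
      rw [hx', hll, hxw]
      have hb2' : b ^ 2 = w ^ 4 + D := by rw [hb2, hxw]; ring
      linear_combination (w ^ 4 + 2 * w ^ 2 * b + b ^ 2 - 2 * w ^ 2 * (w ^ 2 + b)) * hjj - hb2'
    refine ⟨x', ⟨l * w * x', mul_ne_zero (mul_ne_zero hl0 hw0) hx'0, ?_⟩, key⟩
    have e : x' ^ 3 + D * x' = x' * (x' ^ 2 + D) := by ring
    rw [e, key, hxw]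
    ring
  -- the valuations
  have hval : ∀ x ∈ X, ∀ x' ∈ X, x' ^ 2 + D = l ^ 2 * x' * x → |vv F x| = |vv F x'| + 2 := by
    intro x hx x' hx' h
    have n0 := hx0 x hx
    have n1 := hx0 x' hx'
    have v1 := hv0 x' hx'
    have e1 : vv F (l ^ 2 * x' * x) = 2 + vv F x' + vv F x := by
      rw [hav.mul (mul_ne_zero (pow_ne_zero 2 hl0) n1) n0, hav.mul (pow_ne_zero 2 hl0) n1,
        hav.pow hl0, hS.vl]
      norm_num
    have e2 : vv F (x' ^ 2) = 2 * vv F x' := by
      rw [hav.pow n1]; norm_num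
    rw [← h] at e1
    rcases lt_or_gt_of_ne v1 with h2 | h2
    · have h3 := (hav.add_eq (pow_ne_zero 2 n1) hD0 (by rw [e2, hS.vD]; omega)).2
      rw [h3, e2] at e1
      rw [abs_of_neg h2, abs_of_neg (by omega)]
      omega
    · have h3 := (hav.add_eq hD0 (pow_ne_zero 2 n1) (by rw [e2, hS.vD]; omega)).2
      rw [add_comm, h3, hS.vD] at e1
      rw [abs_of_pos h2, abs_of_neg (by omega)]
      omega
  have hstep : ∀ x ∈ X, ∃ x' ∈ X, |vv F x| = |vv F x'| + 2 := by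
    intro x hx
    have n0 := hx0 x hx
    obtain ⟨y, hy, hxy⟩ := id hx
    obtain ⟨w, hw1 | hw1⟩ := square_classR (F := F) hp hw hker hT0 hT hy hxy
    · obtain ⟨x', hx', h1⟩ := hhalf x hx w hw1
      exact ⟨x', hx', hval x hx x' hx' h1⟩
    · rw [← hBdef, ← hD] at hw1
      have hw0 : w ≠ 0 := by
        rintro rfl
        apply n0
        rw [hw1]; ring
      have hτ : D / x ∈ X := by
        refine ⟨D * y / x ^ 2, div_ne_zero (mul_ne_zero hD0 hy) (pow_ne_zero 2 n0), ?_⟩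
        rw [div_pow, mul_pow, hxy]
        field_simp
        ring
      have hτsq : D / x = (1 / w) ^ 2 := by
        rw [hw1]
        field_simp
      obtain ⟨x', hx', h1⟩ := hhalf _ hτ _ hτsq
      refine ⟨x', hx', ?_⟩
      rw [← hval _ hτ x' hx' h1, hav.div hD0 n0, hS.vD, zero_sub, abs_neg]
  have hno : ∀ n : ℕ, ∀ x ∈ X, |vv F x| = n → False := by
    intro n
    induction n using Nat.strong_induction_on with
    | _ n ih =>
      intro x hx hn
      obtain ⟨x', hx', h1⟩ := hstep x hx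
      refine ih (n - 2) (by have := abs_nonneg (vv F x'); omega) x' hx' ?_
      have := abs_nonneg (vv F x')
      omega
  by_contra hy
  exact hno (vv F x).natAbs x ⟨y, hy, hxy⟩ (by rw [Int.abs_eq_natAbs])


end descent

section nonvanishing

variable {ι : Type} [DecidableEq ι] {pr : ι → ZI}

lemma DE_eqR (V : Finset ι) (e : ι → ℕ) :
    DE pr V e = DD pr (Od V e) * TE pr V e ^ 2 := by
  unfold DE DD TE Od
  rw [← Finset.prod_pow, Finset.prod_filter, ← Finset.prod_mul_distrib]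
  refine Finset.prod_congr rfl fun i hi => ?_
  split_ifs with h
  · rw [← pow_mul, ← pow_succ']
    congr 1
    omega
  · rw [← pow_mul, one_mul]
    congr 1
    omega

variable [Fintype ι]

/-- non-vanishing -/
theorem LH_neR (hp : PF pr) {V : Finset ι} {e : ι → ℕ} (h4 : ∀ i ∈ V, e i % 4 ≠ 0)
    (hW : Wt pr V e % 4 = 3)
    (hker : ∀ z : ι → ZMod 2, (∀ v ∈ Od V e, ∑ u ∈ Od V e, em pr u v * (z u + z v) = 0) →
      ∀ u ∈ Od V e, ∀ v ∈ Od V e, z u = z v)
    (hR : ∀ i ∈ V \ Od V e, ∑ u ∈ Od V e, em pr u i = 1) : LH (XX4 hp V e) (1 / 2) ≠ 0 := by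
  classical
  obtain ⟨L, Ω, hGL⟩ := exists_lat
  have hV : V.Nonempty := by
    by_contra hc
    rw [Finset.not_nonempty_iff_eq_empty] at hc
    rw [hc] at hW
    simp [Wt] at hW
  have hfin := H385.he1_finite (DD_ne hp V)
  let _ := Fintype.ofFinite (RQ (DD pr V))
  have l1 := lim_cc4 hGL hp hV hW
  rw [LH_eq4 hp hW h4 l1]
  refine (map_ne_zero _).2 ?_
  obtain ⟨B, hB⟩ := exists_val
  have c1 := M4_cg (v := B.valuation) hB hGL hp V e hW
  have hTT : TQ pr V (Od V e) = 1 := by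
    unfold TQ
    rw [Finset.prod_eq_one hR, mul_one,
      Ff.ell_one (wt pr) (em pr) (em_self hp) (em_symm hp) hker]
    exact Od_wt hp hW
  rw [hTT, uu_one] at c1
  have hM : M4 L Ω pr V e ≠ 0 := by
    intro h0
    rw [h0, zero_div] at c1
    have := c1.s
    rw [zero_sub, Valuation.map_neg, map_one] at this
    exact absurd this (lt_irrefl _)
  have he1 : ℘[L] (Ω / 2) ≠ 0 := by
    intro h0
    have := hGL.e1_sq
    rw [h0] at this
    norm_num at this
  have h1I : (1 + I : ℂ) ≠ 0 := one_I_ne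
  exact mul_ne_zero (div_ne_zero (div_ne_zero (mul_ne_zero (mul_ne_zero hGL.lat.ne he1) h1I)
    two_ne_zero) (tc_ne (DD_ne hp V))) hM

end nonvanishing

end Pool.Agent.L7h3.MR
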