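import Pool.Agent.L7h3.MR.Lg
import Pool.Agent.L7h3.MQ.Ind

/-!
# The Euler product over a general quadratic extension
-/

set_option autoImplicit false
set_option linter.unusedSectionVars false

open NumberField IsDedekindDomain

namespace Pool.Agent.L7h3.MR

open scoped Classical
open WithZero
open Pool.Agent.L7h3.MQ
open Pool.Agent.W189.NF (aV eV)
open Pool.Agent.H921R2.TatePole (nm two_le_nm)
open Pool.Agent.Y696 (HBd LSeries_hasProd')
open Pool.Agent.Y715.Z (q4 q4_map)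
open Pool.Agent.H82R3.EK (luc)

lemma Fac_congr {K : Type} [Field K] [NumberField K] {E E' : WeierstrassCurve K} {s : ℂ}
    {v : HeightOneSpectrum (𝓞 K)} (h : aV E v = aV E' v ∧ eV E v = eV E' v) :
    Fac E s v = Fac E' s v := by
  unfold Fac
  rw [h.1, h.2]

lemma Fac_scale {K : Type} [Field K] [NumberField K] {v : HeightOneSpectrum (𝓞 K)} {a : 𝓞 K}
    (h : (2 : 𝓞 K) * a ∉ v.asIdeal) {c : K} (hc : c ≠ 0) (s : ℂ) {x : K} (hx : x = (a : K) * c ^ 4) :
    Fac (q4 x) s v = Fac (q4 (a : K)) s v := by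
  rw [hx]
  exact Fac_congr (scale_place h hc)

lemma Fac_bad {K : Type} [Field K] [NumberField K] {v : HeightOneSpectrum (𝓞 K)}
    (h2 : (2 : 𝓞 K) ∉ v.asIdeal) (s : ℂ) {x : K} {m : ℤ} (hx : v.valuation K x = exp (-m))
    (hm : m % 4 ≠ 0) : Fac (q4 x) s v = 1 :=
  Fac_zero (bad_odd (val_two_one h2) hx hm)

variable {F F' : Type} [Field F] [NumberField F] [Field F'] [NumberField F'] [Algebra F F']

lemma coe_base (a : 𝓞 F) : ((algebraMap (𝓞 F) (𝓞 F') a : 𝓞 F') : F') = algebraMap F F' (a : F) := rfl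

/-- all the places over a place with ramified behaviour -/
lemma fib_one (h2 : Module.finrank F F' = 2) {P : HeightOneSpectrum (𝓞 F)}
    (h : ∀ v : HeightOneSpectrum (𝓞 F'), und v = P → ee P v ≠ 1) :
    ∃ v0 : HeightOneSpectrum (𝓞 F'), (∀ v, und v = P ↔ v = v0) ∧ ee P v0 = 2 ∧ ff P v0 = 1 := by
  rcases split_cases h2 P with ⟨v1, v2, hne, hall, hef⟩ | ⟨v0, hall, hef⟩
  · exact absurd (hef v1 ((hall v1).2 (Or.inl rfl))).1 (h v1 ((hall v1).2 (Or.inl rfl)))
  · have h0 := h v0 ((hall v0).2 rfl)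
    have h3 : ee P v0 ∣ 2 := ⟨_, hef.symm⟩
    rcases (Nat.dvd_prime Nat.prime_two).1 h3 with h4 | h4
    · exact absurd h4 h0
    · refine ⟨v0, hall, h4, ?_⟩
      rw [h4] at hef
      omega

/-- the value of the parameter at the place above a ramified place -/
lemma Fac_above {P : HeightOneSpectrum (𝓞 F)} {v : HeightOneSpectrum (𝓞 F')} (hv : und v = P)
    (hf : ff P v = 1) {a : 𝓞 F} (h : (2 : 𝓞 F) * a ∉ P.asIdeal) (s : ℂ) :
    Fac (q4 ((algebraMap (𝓞 F) (𝓞 F') a : 𝓞 F') : F')) s v = Fac (q4 (a : F)) s P := by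
  obtain ⟨h3, h4⟩ := aV_above hv h
  unfold Fac
  rw [h3, h4, hf, nm_pow hv, hf, pow_one, (good_place h).2]
  rfl

theorem fib_gen (h2 : Module.finrank F F' = 2) (σ : F' ≃ₐ[F] F') {θ : F'} {d δ : F}
    (hθ : θ ^ 2 = algebraMap F F' d) (hσ : σ θ = -θ) (hδ : δ ≠ 0) (hd : d ≠ 0)
    {P : HeightOneSpectrum (𝓞 F)} (hP : (2 : 𝓞 F) ∉ P.asIdeal) (s : ℂ) :
    ∏ v : {v : HeightOneSpectrum (𝓞 F') // und v = P}, Fac (q4 (algebraMap F F' δ)) s v.1 =
      Fac (q4 δ) s P * Fac (q4 (δ * d ^ 2)) s P := by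
  obtain ⟨m, hm⟩ := exists_val P hδ
  obtain ⟨l, hl⟩ := exists_val P hd
  have h2v : ∀ v : HeightOneSpectrum (𝓞 F'), und v = P → (2 : 𝓞 F') ∉ v.asIdeal := by
    intro v hv h
    apply hP
    rw [← hv, mem_und, map_ofNat]
    exact h
  have hθ0 : θ ≠ 0 := by
    rintro rfl
    apply hd
    rw [zero_pow two_ne_zero] at hθ
    exact (map_eq_zero (algebraMap F F')).1 hθ.symm
  have hdd : P.valuation F (δ * d ^ 2) = exp (-(m + 2 * l)) := by
    rw [map_mul, map_pow, hm, hl, ← exp_nsmul, ← exp_add]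
    congr 1
    simp only [nsmul_eq_mul]
    push_cast
    ring
  have hup : ∀ v : HeightOneSpectrum (𝓞 F'), und v = P →
      v.valuation F' (algebraMap F F' δ) = exp (-(m * ee P v)) := by
    intro v hv
    rw [val_und hv, hm, ← exp_nsmul]
    congr 1
    simp only [nsmul_eq_mul]
    ring
  by_cases hl2 : l % 2 = 0
  · -- the extension is not ramified at `P`
    obtain ⟨k, hk⟩ : ∃ k, l = 2 * k := ⟨l / 2, by omega⟩
    obtain ⟨u, t, hu, ht, hut⟩ := norm_form P (n := 2) (by norm_num) (x := d) (k := k) (by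
      rw [hl, hk]; rfl)
    have ht' : algebraMap F F' t ≠ 0 := by rwa [Ne, map_eq_zero]
    have hint : IsIntegral ℤ (θ / algebraMap F F' t) := by
      refine IsIntegral.of_pow (n := 2) (by norm_num) ?_
      rw [div_pow, hθ, hut, map_mul, map_pow, mul_div_cancel_right₀ _ (pow_ne_zero 2 ht')]
      exact (algebraMap (𝓞 F) (𝓞 F') u).2
    let θ' : 𝓞 F' := ⟨θ / algebraMap F F' t, hint⟩
    have hθ' : θ' ^ 2 = algebraMap (𝓞 F) (𝓞 F') u := by
      apply RingOfIntegers.ext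
      show (θ / algebraMap F F' t) ^ 2 = algebraMap F F' (u : F)
      rw [div_pow, hθ, hut, map_mul, map_pow, mul_div_cancel_right₀ _ (pow_ne_zero 2 ht')]
    have hσ' : σ (θ' : F') = -(θ' : F') := by
      show σ (θ / algebraMap F F' t) = -(θ / algebraMap F F' t)
      rw [map_div₀, hσ, AlgEquiv.commutes, neg_div]
    by_cases hm4 : m % 4 = 0
    · obtain ⟨k', hk'⟩ : ∃ k', m = 4 * k' := ⟨m / 4, by omega⟩
      obtain ⟨a, c, ha, hc, hac⟩ := norm_form P (n := 4) (by norm_num) (x := δ) (k := k') (by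
        rw [hm, hk']; rfl)
      have hc' : algebraMap F F' c ≠ 0 := by rwa [Ne, map_eq_zero]
      have h3 := fib_good h2 σ (θ := θ') (d := u) (δ := a) hθ' hσ' (P := P) (by
        intro h
        rcases P.isPrime.mem_or_mem h with h | h
        · exact two_not_mem hP ha h
        · exact hu h) s
      have h4 : Fac (q4 δ) s P = Fac (q4 (a : F)) s P :=
        Fac_scale (two_not_mem hP ha) hc s hac
      have h5 : Fac (q4 (δ * d ^ 2)) s P = Fac (q4 ((a * u ^ 2 : 𝓞 F) : F)) s P := by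
        refine Fac_scale (two_not_mem hP ?_) (mul_ne_zero hc ht) s ?_
        · intro h
          rcases P.isPrime.mem_or_mem h with h | h
          · exact ha h
          · exact hu (P.isPrime.mem_of_pow_mem _ h)
        · rw [hac, hut]
          show _ = ((a : F) * (u : F) ^ 2) * _
          ring
      rw [h4, h5, ← h3]
      refine Finset.prod_congr rfl fun v _ => ?_
      refine Fac_scale (c := algebraMap F F' c) ?_ hc' s ?_
      · refine two_not_mem (h2v v.1 v.2) fun h => ha ?_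
        rw [← v.2, mem_und]
        exact h
      · rw [hac, map_mul, map_pow]
        rfl
    · -- bad above and below
      have hun : ∀ v : HeightOneSpectrum (𝓞 F'), und v = P → ee P v = 1 := by
        intro v hv
        refine unram_of h2 σ hv (x := θ') ?_
        have e1 : intAut σ θ' - θ' = -(2 * θ') := by
          apply RingOfIntegers.ext
          show σ (θ' : F') - (θ' : F') = -(2 * (θ' : F'))
          rw [hσ']; ring
        rw [e1, neg_mem_iff]
        refine two_not_mem (h2v v hv) fun h => hu ?_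
        rw [← hv, mem_und, ← hθ']
        exact Ideal.pow_mem_of_mem _ h 2 (by norm_num)
      rw [Fac_bad hP s hm hm4, Fac_bad hP s hdd (by omega), one_mul]
      refine Finset.prod_eq_one fun v _ => ?_
      have h3 := hup v.1 v.2
      rw [hun v.1 v.2] at h3
      refine Fac_bad (h2v v.1 v.2) s h3 ?_
      push_cast
      omega
  · -- the extension is ramified at `P`
    have hram : ∀ v : HeightOneSpectrum (𝓞 F'), und v = P → ee P v ≠ 1 := by
      intro v hv h1
      obtain ⟨n, hn⟩ := exists_val v hθ0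
      have h3 : v.valuation F' (θ ^ 2) = exp (-l) := by
        rw [hθ, val_und hv, hl, h1, pow_one]
      rw [map_pow, hn, ← exp_nsmul, exp_inj] at h3
      simp only [nsmul_eq_mul] at h3
      push_cast at h3
      omega
    obtain ⟨v0, hall, he, hf⟩ := fib_one h2 hram
    have hv0 : und v0 = P := (hall v0).2 rfl
    have hprod : ∏ v : {v : HeightOneSpectrum (𝓞 F') // und v = P},
        Fac (q4 (algebraMap F F' δ)) s v.1 = Fac (q4 (algebraMap F F' δ)) s v0 := by
      rw [Fintype.prod_eq_single (⟨v0, hv0⟩ : {v : HeightOneSpectrum (𝓞 F') // und v = P})]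
      intro v hv
      exact absurd (Subtype.ext ((hall v.1).1 v.2)) hv
    rw [hprod]
    by_cases hm4 : m % 4 = 0
    · obtain ⟨k', hk'⟩ : ∃ k', m = 4 * k' := ⟨m / 4, by omega⟩
      obtain ⟨a, c, ha, hc, hac⟩ := norm_form P (n := 4) (by norm_num) (x := δ) (k := k') (by
        rw [hm, hk']; rfl)
      have hc' : algebraMap F F' c ≠ 0 := by rwa [Ne, map_eq_zero]
      rw [Fac_bad hP s hdd (by omega), mul_one, Fac_scale (two_not_mem hP ha) hc s hac,
        ← Fac_above hv0 hf (two_not_mem hP ha) s]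
      refine Fac_scale (c := algebraMap F F' c) ?_ hc' s ?_
      · refine two_not_mem (h2v v0 hv0) fun h => ha ?_
        rw [← hv0, mem_und]
        exact h
      · rw [hac, map_mul, map_pow]
        rfl
    · rw [Fac_bad hP s hm hm4, one_mul]
      by_cases hm2 : m % 2 = 0
      · obtain ⟨k', hk'⟩ : ∃ k', m + 2 * l = 4 * k' := ⟨(m + 2 * l) / 4, by omega⟩
        obtain ⟨a, c, ha, hc, hac⟩ := norm_form P (n := 4) (by norm_num) (x := δ * d ^ 2) (k := k')
          (by rw [hdd, hk']; rfl)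
        rw [Fac_scale (two_not_mem hP ha) hc s hac, ← Fac_above hv0 hf (two_not_mem hP ha) s]
        refine Fac_scale (c := algebraMap F F' c / θ) ?_
          (div_ne_zero (by rwa [Ne, map_eq_zero]) hθ0) s ?_
        · refine two_not_mem (h2v v0 hv0) fun h => ha ?_
          rw [← hv0, mem_und]
          exact h
        · have h3 := congrArg (algebraMap F F') hac
          rw [map_mul, map_mul, map_pow, map_pow, ← hθ] at h3
          rw [div_pow]
          show _ = algebraMap F F' (a : F) * _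
          rw [← mul_div_assoc, ← h3]
          field_simp
      · rw [Fac_bad hP s hdd (by omega)]
        have h3 := hup v0 hv0
        rw [he] at h3
        refine Fac_bad (h2v v0 hv0) s h3 ?_
        push_cast
        omega

/-- both local coefficients vanish at all the places above two -/
def Bad2 {K : Type} [Field K] [NumberField K] (δ : K) : Prop :=
  ∀ v : HeightOneSpectrum (𝓞 K), (2 : 𝓞 K) ∈ v.asIdeal → aV (q4 δ) v = 0 ∧ eV (q4 δ) v = 0

lemma Bad2.hbd {K : Type} [Field K] [NumberField K] {δ : K} (h : Bad2 δ) (hδ : δ ≠ 0)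
    (v : HeightOneSpectrum (𝓞 K)) : HBd (aV (q4 δ) v) (eV (q4 δ) v) (nm v) := by
  by_cases h2 : (2 : 𝓞 K) ∈ v.asIdeal
  · exact Or.inl (h v h2)
  · exact hbd_gen h2 hδ

/-- **the L-series over a quadratic extension** -/
theorem euler_gen (h2 : Module.finrank F F' = 2) (σ : F' ≃ₐ[F] F') {θ : F'} {d δ : F}
    (hθ : θ ^ 2 = algebraMap F F' d) (hσ : σ θ = -θ) (hδ : δ ≠ 0) (hd : d ≠ 0)
    (hb1 : Bad2 δ) (hb2 : Bad2 (δ * d ^ 2)) (hb3 : Bad2 (algebraMap F F' δ)) {s : ℂ}
    (hs : 3 / 2 < s.re) :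
    (q4 (algebraMap F F' δ)).LSeries s = (q4 δ).LSeries s * (q4 (δ * d ^ 2)).LSeries s := by
  have hδ' : algebraMap F F' δ ≠ 0 := by rwa [Ne, map_eq_zero]
  have h3 : HasProd (fun v : HeightOneSpectrum (𝓞 F') => Fac (q4 (algebraMap F F' δ)) s v)
      ((q4 (algebraMap F F' δ)).LSeries s) :=
    (LSeries_hasProd' (q4 (algebraMap F F' δ)) (hb3.hbd hδ') hs).2
  have h4 := (Equiv.sigmaFiberEquiv (und (F := F) (F' := F'))).hasProd_iff.2 h3
  have h5 : HasProd (fun P : HeightOneSpectrum (𝓞 F) =>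
      ∏ v : {v : HeightOneSpectrum (𝓞 F') // und v = P}, Fac (q4 (algebraMap F F' δ)) s v.1)
      ((q4 (algebraMap F F' δ)).LSeries s) := by
    refine h4.sigma fun P => ?_
    exact hasProd_fintype _ (.unconditional _)
  have h6 : HasProd (fun v : HeightOneSpectrum (𝓞 F) => Fac (q4 δ) s v)
      ((q4 δ).LSeries s) := (LSeries_hasProd' (q4 δ) (hb1.hbd hδ) hs).2
  have h7 : HasProd (fun v : HeightOneSpectrum (𝓞 F) => Fac (q4 (δ * d ^ 2)) s v)
      ((q4 (δ * d ^ 2)).LSeries s) :=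
    (LSeries_hasProd' (q4 (δ * d ^ 2)) (hb2.hbd (mul_ne_zero hδ (pow_ne_zero 2 hd))) hs).2
  refine h5.unique ((h6.mul h7).congr_fun fun P => ?_)
  by_cases hP : (2 : 𝓞 F) ∈ P.asIdeal
  · rw [Fac_zero (hb1 P hP), Fac_zero (hb2 P hP), one_mul]
    refine Finset.prod_eq_one fun v _ => Fac_zero (hb3 v.1 ?_)
    have h8 : (2 : 𝓞 F) ∈ (und (F := F) v.1).asIdeal := by rw [v.2]; exact hP
    rw [mem_und, map_ofNat] at h8
    exact h8
  · exact fib_gen h2 σ hθ hσ hδ hd hP s

/-- what is proved for one curve -/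
def Con {K : Type} [Field K] [NumberField K] (δ : K) : Prop :=
  Finite (q4 δ).toAffine.Point ∧
  ∃ L : ℂ → ℂ, Differentiable ℂ L ∧ L 1 ≠ 0 ∧ ∀ s : ℂ, 3 / 2 < s.re → L s = (q4 δ).LSeries s

/-- **the step** -/
theorem con_step (h2 : Module.finrank F F' = 2) {θ : F'} {d δ : F}
    (hθ : θ ^ 2 = algebraMap F F' d) (hn : θ ∉ Set.range (algebraMap F F')) (hδ : δ ≠ 0)
    (hb1 : Bad2 δ) (hb2 : Bad2 (δ * d ^ 2)) (hb3 : Bad2 (algebraMap F F' δ))
    (h3 : Con δ) (h4 : Con (δ * d ^ 2)) : Con (algebraMap F F' δ) := by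
  obtain ⟨σ, hσ, -, -⟩ := quad_conj h2 hθ hn
  have hd : d ≠ 0 := by
    rintro rfl
    apply hn
    rw [map_zero] at hθ
    exact ⟨0, by rw [map_zero]; exact (pow_eq_zero_iff two_ne_zero |>.1 hθ).symm⟩
  refine ⟨fin_step h2 hθ hn hδ h3.1 h4.1, ?_⟩
  obtain ⟨L1, a1, b1, c1⟩ := h3.2
  obtain ⟨L2, a2, b2, c2⟩ := h4.2
  refine ⟨fun s => L1 s * L2 s, a1.mul a2, mul_ne_zero b1 b2, fun s hs => ?_⟩
  show L1 s * L2 s = _
  rw [c1 s hs, c2 s hs]
  exact (euler_gen h2 σ hθ hσ hδ hd hb1 hb2 hb3 hs).symm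

/-- twists by fourth powers -/
theorem con_scale {K : Type} [Field K] [NumberField K] {δ c : K} (hδ : δ ≠ 0) (hc : c ≠ 0)
    (hb1 : Bad2 δ) (hb2 : Bad2 (δ * c ^ 4)) (h : Con δ) : Con (δ * c ^ 4) := by
  have hδc : δ * c ^ 4 ≠ 0 := mul_ne_zero hδ (pow_ne_zero 4 hc)
  refine ⟨?_, ?_⟩
  · rw [sol_finite hδc]
    have h1 := (sol_finite hδ).1 h.1
    refine (h1.image (fun p : K × K => (c ^ 2 * p.1, c ^ 3 * p.2))).subset ?_
    rintro ⟨x, y⟩ hxy
    have hxy' : y ^ 2 = x ^ 3 + δ * c ^ 4 * x := hxy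
    refine ⟨(x / c ^ 2, y / c ^ 3), ?_, ?_⟩
    · show (y / c ^ 3) ^ 2 = (x / c ^ 2) ^ 3 + δ * (x / c ^ 2)
      rw [div_pow, hxy']
      field_simp
    · show (c ^ 2 * (x / c ^ 2), c ^ 3 * (y / c ^ 3)) = (x, y)
      rw [mul_div_cancel₀ _ (pow_ne_zero 2 hc), mul_div_cancel₀ _ (pow_ne_zero 3 hc)]
  · obtain ⟨L, a, b, hL⟩ := h.2
    refine ⟨L, a, b, fun s hs => ?_⟩
    rw [hL s hs]
    have h1 := (LSeries_hasProd' (q4 δ) (hb1.hbd hδ) hs).2
    have h2 := (LSeries_hasProd' (q4 (δ * c ^ 4)) (hb2.hbd hδc) hs).2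
    refine h1.unique (h2.congr_fun fun v => ?_)
    show Fac (q4 δ) s v = Fac (q4 (δ * c ^ 4)) s v
    by_cases hv : (2 : 𝓞 K) ∈ v.asIdeal
    · rw [Fac_zero (hb1 v hv), Fac_zero (hb2 v hv)]
    · obtain ⟨m, hm⟩ := exists_val v hδ
      obtain ⟨l, hl⟩ := exists_val v hc
      have hdd : v.valuation K (δ * c ^ 4) = exp (-(m + 4 * l)) := by
        rw [map_mul, map_pow, hm, hl, ← exp_nsmul, ← exp_add]
        congr 1
        simp only [nsmul_eq_mul]
        push_cast
        ring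
      by_cases hm4 : m % 4 = 0
      · obtain ⟨k', hk'⟩ : ∃ k', m = 4 * k' := ⟨m / 4, by omega⟩
        obtain ⟨a, t, ha, ht, hat⟩ := norm_form v (n := 4) (by norm_num) (x := δ) (k := k') (by
          rw [hm, hk']; rfl)
        have e1 : δ * c ^ 4 = (a : K) * (t * c) ^ 4 := by rw [hat]; ring
        rw [Fac_scale (two_not_mem hv ha) ht s hat,
          Fac_scale (two_not_mem hv ha) (mul_ne_zero ht hc) s e1]
      · rw [Fac_bad hv s hm hm4, Fac_bad hv s hdd (by omega)]

end Pool.Agent.L7h3.MR
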