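import Pool.Agent.L7h3.MR.Ir
import Pool.Agent.L7h3.MQ.Fin

/-!
# The final assembly, general form
-/

set_option autoImplicit false
set_option linter.unusedSectionVars false

open NumberField IsDedekindDomain

namespace Pool.Agent.L7h3.MR

open scoped Classical
open Pool.Agent.L7h3.MQ
open Pool.Agent.Y699
open H385 (ZI RQ im1 nrm)
open Pool.Agent.H304R2.EC.A1 (prim prim_mul prim_cancel prim_one prim_norm_odd prim_star eq_one_of_prim
  norm_def' re_mul' im_mul' eq_of_dvd prim_ne_zero exists_prim)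
open Pool.Agent.Y715.Z

lemma exists_S' {N δ : ZI} (hN : N ≠ 0) (hP : PS δ) (hd : δ ∣ N) :
    ∃ S : Finset {π : ZI // π ∈ PD N}, DD (fam N) S = δ := by
  have hsub : PD δ ⊆ PD N := by
    intro π hπ
    rw [mem_PD hP.ne] at hπ
    rw [mem_PD hN]
    exact ⟨hπ.1, hπ.2.trans hd⟩
  refine ⟨Finset.univ.filter (fun π => π.1 ∈ PD δ), ?_⟩
  have h1 : (∏ π ∈ PD δ, π) = δ := hP.prod
  unfold DD fam
  conv_rhs => rw [← h1]
  refine Finset.prod_bij (fun π _ => π.1) ?_ ?_ ?_ ?_
  · intro π hπ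
    exact (Finset.mem_filter.1 hπ).2
  · intro a _ b _ hab
    exact Subtype.ext hab
  · intro b hb
    exact ⟨⟨b, hsub hb⟩, Finset.mem_filter.2 ⟨Finset.mem_univ _, hb⟩, rfl⟩
  · intro a _
    rfl

/-- the condition on the generators of the extension -/
def Ok (D δ : ZI) : Prop :=
  Squarefree δ ∧ (4 : ZI) ∣ δ - 1 ∧
    ∀ ρ : ZI, Prime ρ → ρ ∣ δ → ρ ∣ D ∨ ∀ x : ZI, ¬ ρ ∣ x ^ 2 - D

lemma Ok.ps {D δ : ZI} (h : Ok D δ) : PS δ := ⟨(one_mod_four h.2.1).1, h.1⟩

/-- the inclusion of the primes of `D` in the primes of a multiple -/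
noncomputable def incl {D N : ZI} (hD : D ≠ 0) (hN : N ≠ 0) (h : D ∣ N) :
    {π : ZI // π ∈ PD D} ↪ {π : ZI // π ∈ PD N} where
  toFun π := ⟨π.1, by
    have h1 := (mem_PD hD).1 π.2
    exact (mem_PD hN).2 ⟨h1.1, h1.2.trans h⟩⟩
  inj' := fun a b hab => Subtype.ext (congrArg (fun z => z.1) hab)

lemma incl_fam {D N : ZI} (hD : D ≠ 0) (hN : N ≠ 0) (h : D ∣ N) (i : {π : ZI // π ∈ PD D}) :
    fam N (incl hD hN h i) = fam D i := rfl

lemma incl_em {D N : ZI} (hD : D ≠ 0) (hN : N ≠ 0) (h : D ∣ N) (i j : {π : ZI // π ∈ PD D}) :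
    em (fam N) (incl hD hN h i) (incl hD hN h j) = em (fam D) i j := rfl

lemma incl_wt {D N : ZI} (hD : D ≠ 0) (hN : N ≠ 0) (h : D ∣ N) (i : {π : ZI // π ∈ PD D}) :
    wt (fam N) (incl hD hN h i) = wt (fam D) i := rfl

/-- **the criterion over multiquadratic extensions** -/
theorem crit_multiR {D : ZI} (hg : Good4 D) {K : Type} [Field K] [NumberField K] (e : ZI ≃+* 𝓞 K)
    {F : Type} [Field F] [NumberField F] [Algebra K F] (T : Finset F)
    (hT : ∀ t ∈ T, ∃ δ : ZI, Ok D δ ∧ t ^ 2 = algebraMap K F ((e δ : 𝓞 K) : K))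
    (htop : IntermediateField.adjoin K (T : Set F) = ⊤) :
    Con (algebraMap K F ((e D : 𝓞 K) : K)) := by
  have hD := hg.ps.ne
  choose! f hf1 hf2 using hT
  set N : ZI := D * ∏ t ∈ T, f t with hNdef
  have hN : N ≠ 0 := mul_ne_zero hD (Finset.prod_ne_zero_iff.2 fun t ht => (hf1 t ht).ps.ne)
  have hDN : D ∣ N := dvd_mul_right _ _
  have hp := fam_PF hN
  set O : Finset {π : ZI // π ∈ PD N} := Finset.univ.map (incl hD hN hDN) with hO
  have hDD : DD (fam N) O = D := by
    unfold DD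
    rw [hO, Finset.prod_map]
    exact hg.ps.DD
  have hmemO : ∀ i : {π : ZI // π ∈ PD N}, i.1 ∣ D → i ∈ O := by
    intro i hi
    rw [hO, Finset.mem_map]
    refine ⟨⟨i.1, (mem_PD hD).2 ⟨((mem_PD hN).1 i.2).1, hi⟩⟩, Finset.mem_univ _, ?_⟩
    exact Subtype.ext rfl
  have H : Dat (fam N) Finset.univ O := by
    refine ⟨hp, Finset.subset_univ _, ?_, ?_, ?_⟩
    · rw [hO, Finset.sum_map]
      exact wt_sum hg.ps hg.good.five
    · intro z hz
      have h1 := ker_of_good hg.good (fun i => z (incl hD hN hDN i)) (by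
        intro v _
        have h2 := hz (incl hD hN hDN v) (Finset.mem_map_of_mem _ (Finset.mem_univ v))
        rw [hO, Finset.sum_map] at h2
        exact h2)
      intro u hu v hv
      rw [hO, Finset.mem_map] at hu hv
      obtain ⟨u', -, rfl⟩ := hu
      obtain ⟨v', -, rfl⟩ := hv
      exact h1 u' (Finset.mem_univ _) v' (Finset.mem_univ _)
    · intro i hi x
      rw [hDD]
      have hiO : i ∉ O := (Finset.mem_sdiff.1 hi).2
      have hiD : ¬ i.1 ∣ D := fun h => hiO (hmemO i h)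
      have hiP := ((mem_PD hN).1 i.2).1.pr
      have h2 := ((mem_PD hN).1 i.2).2
      rcases hiP.dvd_or_dvd h2 with h3 | h3
      · exact absurd h3 hiD
      · obtain ⟨t, ht, h4⟩ := (hiP.dvd_finsetProd_iff _).1 h3
        rcases (hf1 t ht).2.2 i.1 hiP h4 with h5 | h5
        · exact absurd h5 hiD
        · exact h5 x
  have hG := towerR (pr := fam N) e H T.card F T rfl (by
      intro t ht
      obtain ⟨h4, h5⟩ := one_mod_four (hf1 t ht).2.1
      obtain ⟨S, hS⟩ := exists_S' hN (hf1 t ht).ps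
        ((Finset.dvd_prod_of_mem f ht).trans (dvd_mul_left _ _))
      exact ⟨S, Finset.subset_univ _, by rw [hS]; exact h5, by rw [hS]; exact hf2 t ht⟩) htop
  set ex : {π : ZI // π ∈ PD N} → ℕ := fun i => if i ∈ O then 1 else 0 with hex
  have hA : Adm (fam N) Finset.univ O ex := by
    constructor
    · intro i _
      rw [hex]
      by_cases h : i ∈ O
      · simp [h]
      · simp [h]
    · unfold Wt
      have h1 : ∑ i, ex i * wq (fam N i) = ∑ i ∈ O, wq (fam N i) := by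
        rw [hex]
        simp only [ite_mul, one_mul, zero_mul]
        rw [Finset.sum_ite_mem, Finset.univ_inter]
      rw [h1, hO, Finset.sum_map]
      exact sum_wq hg
  have h6 := hG.2 ex hA
  have hDE : DE (fam N) Finset.univ ex = D := by
    rw [← hDD]
    unfold DE DD
    rw [hex]
    simp only [pow_ite, pow_one, pow_zero]
    rw [Finset.prod_ite_mem, Finset.univ_inter]
  rw [hDE] at h6
  exact h6

/-- there are infinitely many primes of the second kind -/
theorem inf_primes {D : ZI} (h5 : D.norm % 8 = 5) :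
    {ρ : ZI | Prime ρ ∧ (4 : ZI) ∣ ρ - 1 ∧ ∀ x : ZI, ¬ ρ ∣ x ^ 2 - D}.Infinite := by
  set m : ℕ := D.norm.natAbs with hm
  have hn0 : 0 ≤ D.norm := GaussianInt.norm_nonneg D
  have hmD : (m : ℤ) = D.norm := by rw [hm]; omega
  have hm8 : m % 8 = 5 := by omega
  have hmo : Odd m := Nat.odd_iff.2 (by omega)
  have hcop : Nat.Coprime m 4 := by
    have : Nat.Coprime m 2 := (Nat.coprime_two_right).2 hmo
    exact Nat.Coprime.pow_right 2 this
  obtain ⟨a, ha1, ha2⟩ := Nat.chineseRemainder hcop 2 3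
  have hacop : Nat.Coprime a (m * 4) := by
    refine Nat.Coprime.mul_right ?_ ?_
    · have h1 : Nat.Coprime 2 m := (Nat.coprime_two_left).2 hmo
      have h2 := ha1.gcd_eq
      rw [Nat.Coprime, h2]
      exact h1
    · have h2 := ha2.gcd_eq
      rw [Nat.Coprime, h2]
      decide
  have hm0 : m * 4 ≠ 0 := by omega
  have : NeZero (m * 4) := ⟨hm0⟩
  have hinf := Nat.infinite_setOf_prime_and_eq_mod (q := m * 4) (a := (a : ZMod (m * 4)))
    ((ZMod.isUnit_iff_coprime a (m * 4)).2 hacop)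
  have hinj : Set.InjOn (fun p : ℕ => (-(p : ZI)))
      {p : ℕ | p.Prime ∧ (p : ZMod (m * 4)) = (a : ZMod (m * 4))} := by
    intro p _ q _ hpq
    have h1 : (p : ZI) = (q : ZI) := neg_injective hpq
    exact_mod_cast h1
  refine (hinf.image hinj).mono ?_
  rintro _ ⟨q, ⟨hq, hqa⟩, rfl⟩
  rw [ZMod.natCast_eq_natCast_iff] at hqa
  have hq1 : q ≡ 2 [MOD m] := (hqa.of_mul_right 4).trans ha1
  have hq2 : q ≡ 3 [MOD 4] := (hqa.of_mul_left m).trans ha2
  have hq4 : q % 4 = 3 := hq2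
  have hqp := Fact.mk hq
  have hprime : Prime (q : ZI) := GaussianInt.prime_of_nat_prime_of_mod_four_eq_three q hq4
  refine ⟨hprime.neg, ?_, ?_⟩
  · obtain ⟨k, hk⟩ : ∃ k, q = 4 * k + 3 := ⟨q / 4, by omega⟩
    refine ⟨-(k : ZI) - 1, ?_⟩
    rw [hk]
    push_cast
    ring
  · intro x hx
    rw [neg_dvd] at hx
    -- the norm of `D` is a square modulo `q`
    have h1 : ((q : ℤ) : ZI) ∣ ((x.norm ^ 2 - D.norm : ℤ) : ZI) := by
      obtain ⟨c, hc⟩ := hx
      have h2 : x ^ 2 = D + q * c := by rw [← hc]; ring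
      have h3 : (x ^ 2).norm = x.norm ^ 2 := by rw [sq, Zsqrtd.norm_mul, sq]
      have e1 : ((x.norm ^ 2 : ℤ) : ZI) = (D + q * c) * star (D + q * c) := by
        rw [← h3, Zsqrtd.norm_eq_mul_conj, h2]
      have e2 : ((D.norm : ℤ) : ZI) = D * star D := Zsqrtd.norm_eq_mul_conj D
      rw [Int.cast_sub, e1, e2, star_add, star_mul]
      refine ⟨D * star c + c * star D + q * c * star c, ?_⟩
      have e3 : star (q : ZI) = (q : ZI) := by
        rw [← Int.cast_natCast]
        ext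
        · simp
        · simp
      rw [e3]
      push_cast
      ring
    have h4 : (q : ℤ) ∣ x.norm ^ 2 - D.norm := by
      have h5 := (Zsqrtd.intCast_dvd (q : ℤ) ((x.norm ^ 2 - D.norm : ℤ) : ZI)).1 h1
      rw [Zsqrtd.re_intCast] at h5
      exact h5.1
    have h6 : legendreSym q (m : ℤ) ≠ -1 := by
      intro h7
      rw [legendreSym.eq_neg_one_iff] at h7
      apply h7
      refine ⟨((x.norm : ℤ) : ZMod q), ?_⟩
      have h8 := (ZMod.intCast_zmod_eq_zero_iff_dvd _ q).2 h4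
      rw [hmD]
      push_cast at h8
      linear_combination -h8
    apply h6
    rw [jacobiSym.legendreSym.to_jacobiSym]
    have hmo4 : m % 4 = 1 := by omega
    rw [jacobiSym.quadratic_reciprocity_one_mod_four hmo4 (Nat.odd_iff.2 (by omega))]
    have h9 : jacobiSym (q : ℤ) m = jacobiSym 2 m := by
      rw [jacobiSym.mod_left (q : ℤ) m, jacobiSym.mod_left 2 m]
      congr 1
      have := hq1
      have h10 : (q : ℤ) ≡ ((2 : ℕ) : ℤ) [ZMOD (m : ℤ)] := (Int.natCast_modEq_iff).2 hq1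
      exact h10
    rw [h9, jacobiSym.at_two hmo, ZMod.χ₈_nat_mod_eight, hm8]
    decide

end Pool.Agent.L7h3.MR
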