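import Pool.Agent.L7h3.MR.Kr

/-!
# The induction over the multiquadratic extensions, general form
-/

set_option autoImplicit false
set_option linter.unusedSectionVars false

open NumberField IsDedekindDomain

namespace Pool.Agent.L7h3.MR

open scoped Classical
open WithZero
open Pool.Agent.L7h3.MQ
open Pool.Agent.Y699
open Pool.Agent.H921R2.TatePole (nm two_le_nm below)
open H385 (ZI RQ im1 nrm)
open Pool.Agent.H304R2.EC.A1 (prim prim_mul prim_cancel prim_one prim_norm_odd prim_star eq_one_of_prim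
  norm_def' re_mul' im_mul' eq_of_dvd prim_ne_zero exists_prim)
open Pool.Agent.Y715.Z

variable {ι : Type} [DecidableEq ι] {pr : ι → ZI}

/-- two is not ramified over the Gaussian field -/
def Two (F : Type) [Field F] [NumberField F] : Prop :=
  ∀ P : HeightOneSpectrum (𝓞 F), (2 : 𝓞 F) ∈ P.asIdeal → P.valuation F 2 = exp (-2 : ℤ)

/-- what is proved for a field of the tower -/
def GoodR {F : Type} [Field F] [NumberField F] (pr : ι → ZI) (V O : Finset ι) (γ : ZI →+* 𝓞 F) :
    Prop :=
  Two F ∧ ∀ ex : ι → ℕ, Adm pr V O ex → Con ((γ (DE pr V ex) : 𝓞 F) : F)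

section step

variable {F F' : Type} [Field F] [NumberField F] [Field F'] [NumberField F'] [Algebra F F']

/-- two is not ramified in the next field -/
theorem Two.step {S : Finset ι} {γ : ZI →+* 𝓞 F} (H : Two F) (hp : PF pr)
    (hN : (DD pr S).norm % 8 = 1)
    (h2 : Module.finrank F F' = 2) (σ : F' ≃ₐ[F] F') {θ : 𝓞 F'}
    (hθ : θ ^ 2 = algebraMap (𝓞 F) (𝓞 F') (γ (DD pr S))) (hσ : σ (θ : F') = -(θ : F')) :
    Two F' := by
  have hσ' : intAut σ θ = -θ := by
    apply RingOfIntegers.ext
    rw [intAut_coe, hσ]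
    rfl
  intro v hv
  have hP : (2 : 𝓞 F) ∈ (und (F := F) v).asIdeal := by
    rw [mem_und, map_ofNat]; exact hv
  have h3 := H _ hP
  obtain ⟨k, hk⟩ := DD_one_mod_four hp hN
  have h5 : (θ : F') ^ 2 = 1 + 4 * ((algebraMap (𝓞 F) (𝓞 F') (γ k) : 𝓞 F') : F') := by
    have h6 : ((θ ^ 2 : 𝓞 F') : F') =
        ((algebraMap (𝓞 F) (𝓞 F') (γ (1 + 4 * k)) : 𝓞 F') : F') := by rw [hθ, hk]
    have h7 : algebraMap (𝓞 F) (𝓞 F') (γ (1 + 4 * k)) =
        1 + 4 * algebraMap (𝓞 F) (𝓞 F') (γ k) := by
      simp only [map_add, map_mul, map_one, map_ofNat]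
    rw [h7] at h6
    exact h6
  have hint : IsIntegral ℤ ((1 + (θ : F')) / 2) := int_half θ _ h5
  let x : 𝓞 F' := ⟨(1 + (θ : F')) / 2, hint⟩
  have hx : intAut σ x - x = -θ := by
    apply RingOfIntegers.ext
    have h5 : ((intAut σ x - x : 𝓞 F') : F') = σ ((1 + (θ : F')) / 2) - (1 + (θ : F')) / 2 := rfl
    rw [h5, map_div₀, map_add, map_one, hσ, map_ofNat]
    show _ = -(θ : F')
    ring
  have hθv : θ ∉ v.asIdeal := by
    intro h
    have h5 : θ ^ 2 ∈ v.asIdeal := Ideal.pow_mem_of_mem _ h 2 (by norm_num)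
    rw [hθ, hk] at h5
    simp only [map_add, map_mul, map_one, map_ofNat] at h5
    have h6 : (4 : 𝓞 F') * algebraMap (𝓞 F) (𝓞 F') (γ k) ∈ v.asIdeal := by
      have e1 : (4 : 𝓞 F') * algebraMap (𝓞 F) (𝓞 F') (γ k) =
        2 * (2 * algebraMap (𝓞 F) (𝓞 F') (γ k)) := by ring
      rw [e1]
      exact v.asIdeal.mul_mem_right _ hv
    have h7 := v.asIdeal.sub_mem h5 h6
    rw [add_sub_cancel_right] at h7
    exact v.isPrime.ne_top ((Ideal.eq_top_iff_one _).2 h7)
  have hun : ee (und (F := F) v) v = 1 := by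
    refine unram_of h2 σ rfl (x := x) ?_
    rw [hx, neg_mem_iff]
    exact hθv
  have h5 := val_und (F := F) (v := v) rfl 2
  rw [hun, pow_one, h3, map_ofNat] at h5
  exact h5

lemma Adm.twist (hp : PF pr) {V O S : Finset ι} (hS : S ⊆ V) (hN : (DD pr S).norm % 8 = 1)
    {ex : ι → ℕ} (h : Adm pr V O ex) :
    Adm pr V O (fun i => if i ∈ S then ex i + 2 else ex i) := by
  refine ⟨fun i hi => ?_, Wt_twist hp hS hN h.2⟩
  rw [← h.1 i hi]
  show (if i ∈ S then ex i + 2 else ex i) % 2 = 1 ↔ _
  split_ifs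
  · omega
  · rfl

/-- **the step of the tower** -/
theorem GoodR.step {V O S : Finset ι} {γ : ZI →+* 𝓞 F} (H : GoodR pr V O γ) (hp : PF pr)
    (hS : S ⊆ V) (hγ : Function.Injective γ)
    (hN : (DD pr S).norm % 8 = 1) (h2 : Module.finrank F F' = 2) {θ : 𝓞 F'}
    (hθ : θ ^ 2 = algebraMap (𝓞 F) (𝓞 F') (γ (DD pr S)))
    (hn : (θ : F') ∉ Set.range (algebraMap F F')) :
    GoodR pr V O ((algebraMap (𝓞 F) (𝓞 F')).comp γ) := by
  have hθ' : (θ : F') ^ 2 = algebraMap F F' ((γ (DD pr S) : 𝓞 F) : F) := by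
    have h5 : ((θ ^ 2 : 𝓞 F') : F') =
      ((algebraMap (𝓞 F) (𝓞 F') (γ (DD pr S)) : 𝓞 F') : F') := by rw [hθ]
    exact h5
  obtain ⟨σ, hσ, -, -⟩ := quad_conj h2 hθ' hn
  have hI : Two F' := H.1.step (pr := pr) (S := S) (γ := γ) hp hN h2 σ hθ hσ
  refine ⟨hI, fun ex hA => ?_⟩
  have hA' := hA.twist hp hS hN
  have e1 : ((γ (DE pr V (fun i => if i ∈ S then ex i + 2 else ex i)) : 𝓞 F) : F) =
      ((γ (DE pr V ex) : 𝓞 F) : F) * ((γ (DD pr S) : 𝓞 F) : F) ^ 2 := by
    rw [DE_twist hS, map_mul, map_pow]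
    rfl
  have c1 := H.2 ex hA
  have c2 := H.2 _ hA'
  have b1 : Bad2 ((γ (DE pr V ex) : 𝓞 F) : F) := bad2 hp hA.2 H.1
  have b2 := bad2 (γ := γ) hp hA'.2 H.1
  have b3 : Bad2 ((((algebraMap (𝓞 F) (𝓞 F')).comp γ) (DE pr V ex) : 𝓞 F') : F') := bad2 hp hA.2 hI
  rw [e1] at c2 b2
  refine con_step h2 hθ' hn ?_ b1 b2 b3 c1 c2
  intro h0
  apply DE_ne hp V ex
  apply hγ
  rw [map_zero]
  exact RingOfIntegers.ext h0

end step

/-- **the induction** -/
theorem towerR [Fintype ι] {K : Type} [Field K] [NumberField K] (e : ZI ≃+* 𝓞 K)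
    {V O : Finset ι} (H : Dat pr V O) :
    ∀ (n : ℕ) (F : Type) [Field F] [NumberField F] [Algebra K F] (T : Finset F), T.card = n →
      (∀ t ∈ T, ∃ S ⊆ V, (DD pr S).norm % 8 = 1 ∧
        t ^ 2 = algebraMap K F ((e (DD pr S) : 𝓞 K) : K)) →
      IntermediateField.adjoin K (T : Set F) = ⊤ →
      GoodR pr V O ((algebraMap (𝓞 K) (𝓞 F)).comp (e : ZI →+* 𝓞 K)) := by
  intro n
  have hp := H.pf
  induction n with
  | zero =>
    intro F _ _ _ T hT _ htop
    rw [Finset.card_eq_zero] at hT
    subst hT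
    rw [Finset.coe_empty, IntermediateField.adjoin_empty] at htop
    have hbij : Function.Bijective (algebraMap K F) := by
      refine ⟨(algebraMap K F).injective, fun x => ?_⟩
      have hx : x ∈ (⊤ : IntermediateField K F) := trivial
      rw [← htop, IntermediateField.mem_bot] at hx
      exact hx
    let eF : ZI ≃+* 𝓞 F := e.trans (RingOfIntegers.mapRingEquiv (RingEquiv.ofBijective _ hbij))
    have h1 : (algebraMap (𝓞 K) (𝓞 F)).comp (e : ZI →+* 𝓞 K) = (eF : ZI →+* 𝓞 F) := by
      apply RingHom.ext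
      intro z
      apply RingOfIntegers.ext
      rfl
    rw [h1]
    exact ⟨base_two eF, fun ex hA => baseR eF H hA⟩
  | succ n ih =>
    intro F _ _ _ T hT hsq htop
    obtain ⟨x, hx⟩ : T.Nonempty := by
      rw [← Finset.card_pos, hT]; omega
    have hcard : (T.erase x).card = n := by
      rw [Finset.card_erase_of_mem hx, hT]; rfl
    by_cases htop' : IntermediateField.adjoin K ((T.erase x : Finset F) : Set F) = ⊤
    · exact ih F (T.erase x) hcard (fun t ht => hsq t (Finset.mem_of_mem_erase ht)) htop'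
    · set M := IntermediateField.adjoin K ((T.erase x : Finset F) : Set F) with hM
      have hTM : ∀ t ∈ T.erase x, t ∈ M := fun t ht =>
        IntermediateField.subset_adjoin K _ (Finset.mem_coe.2 ht)
      let T' : Finset M := (T.erase x).subtype (· ∈ M)
      have hcard' : T'.card = n := by
        rw [Finset.card_subtype, Finset.filter_true_of_mem hTM, hcard]
      have hsq' : ∀ t ∈ T', ∃ S ⊆ V, (DD pr S).norm % 8 = 1 ∧
          t ^ 2 = algebraMap K M ((e (DD pr S) : 𝓞 K) : K) := by
        intro t ht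
        rw [Finset.mem_subtype] at ht
        obtain ⟨S, h1, h2, h3⟩ := hsq t (Finset.mem_of_mem_erase ht)
        refine ⟨S, h1, h2, ?_⟩
        apply Subtype.ext
        exact h3
      have htopM : IntermediateField.adjoin K (T' : Set M) = ⊤ := by
        have h1 : (IntermediateField.adjoin K (T' : Set M)).map M.val =
            (⊤ : IntermediateField K M).map M.val := by
          rw [IntermediateField.adjoin_map]
          have h2 : (M.val '' (T' : Set M)) = ((T.erase x : Finset F) : Set F) := by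
            ext t
            constructor
            · rintro ⟨t', ht', rfl⟩
              exact Finset.mem_coe.2 (Finset.mem_subtype.1 (Finset.mem_coe.1 ht'))
            · intro ht
              exact ⟨⟨t, hTM t (Finset.mem_coe.1 ht)⟩,
                Finset.mem_coe.2 (Finset.mem_subtype.2 (Finset.mem_coe.1 ht)), rfl⟩
          rw [h2, ← hM, ← AlgHom.fieldRange_eq_map, IntermediateField.fieldRange_val]
        exact IntermediateField.map_injective M.val h1
      have hG := ih M T' hcard' hsq' htopM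
      obtain ⟨S, hS, hN, hx2⟩ := hsq x hx
      have hxM : x ∉ Set.range (algebraMap M F) := by
        rintro ⟨y, hy⟩
        apply htop'
        rw [eq_top_iff, ← htop, IntermediateField.adjoin_le_iff]
        intro t ht
        by_cases htx : t = x
        · rw [htx, ← hy]
          exact y.2
        · exact hTM t (Finset.mem_erase.2 ⟨htx, Finset.mem_coe.1 ht⟩)
      have hint : IsIntegral ℤ x := by
        refine IsIntegral.of_pow (n := 2) (by norm_num) ?_
        rw [hx2]
        exact (algebraMap (𝓞 K) (𝓞 F) (e (DD pr S))).2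
      let θ : 𝓞 F := ⟨x, hint⟩
      have hθ : θ ^ 2 = algebraMap (𝓞 M) (𝓞 F)
          (((algebraMap (𝓞 K) (𝓞 M)).comp (e : ZI →+* 𝓞 K)) (DD pr S)) := by
        apply RingOfIntegers.ext
        show x ^ 2 = _
        rw [hx2]
        rfl
      have h2 : Module.finrank M F = 2 := by
        refine finrank_two (x := x) (c := algebraMap K M ((e (DD pr S) : 𝓞 K) : K)) ?_ hxM ?_
        · rw [hx2]
          rfl
        · rw [eq_top_iff]
          intro y _
          have hy : y ∈ (⊤ : IntermediateField K F) := trivial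
          rw [← htop] at hy
          have hle : IntermediateField.adjoin K (T : Set F) ≤
              (IntermediateField.adjoin M {x}).restrictScalars K := by
            rw [IntermediateField.adjoin_le_iff]
            intro t ht
            show t ∈ (IntermediateField.adjoin M {x})
            by_cases htx : t = x
            · rw [htx]
              exact IntermediateField.mem_adjoin_simple_self M x
            · exact (IntermediateField.adjoin M {x}).algebraMap_mem
                ⟨t, hTM t (Finset.mem_erase.2 ⟨htx, Finset.mem_coe.1 ht⟩)⟩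
          exact hle hy
      have hinj : Function.Injective ((algebraMap (𝓞 K) (𝓞 M)).comp (e : ZI →+* 𝓞 K)) :=
        (FaithfulSMul.algebraMap_injective (𝓞 K) (𝓞 M)).comp e.injective
      have h3 := hG.step (F' := F) hp hS hinj hN h2 hθ hxM
      have h4 : (algebraMap (𝓞 K) (𝓞 F)).comp (e : ZI →+* 𝓞 K) = (algebraMap (𝓞 M) (𝓞 F)).comp
          ((algebraMap (𝓞 K) (𝓞 M)).comp (e : ZI →+* 𝓞 K)) := by
        apply RingHom.ext
        intro z
        apply RingOfIntegers.ext
        rfl
      rw [h4]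
      exact h3

end Pool.Agent.L7h3.MR
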