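import Pool.Agent.L7h3.MR.Eg
import Pool.Agent.L7h3.MR.Ar

/-!
# The base field, with additional primes of even exponents
-/

set_option autoImplicit false
set_option linter.unusedSectionVars false

open NumberField IsDedekindDomain

namespace Pool.Agent.L7h3.MR

open scoped Classical
open WeierstrassCurve
open Pool.Agent.L7h3.MQ
open Pool.Agent.Y699
open Pool.Agent.W189.NF (aV eV)
open Pool.Agent.H921R2.TatePole (nm two_le_nm below)
open H385 (ZI RQ im1 nrm)
open Pool.Agent.W164.RC (tc_mul tc_star two2 prim_iff_dvd unit_norm unit_cases Ip Ip_spec)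
open Pool.Agent.H304R3.HK (tc HC LH)
open Pool.Agent.H304R2.EC.A1 (prim prim_mul prim_cancel prim_one prim_norm_odd prim_star eq_one_of_prim
  norm_def' re_mul' im_mul' eq_of_dvd prim_ne_zero exists_prim)
open Pool.Agent.Y696 (HBd LSeries_hasProd')
open Pool.Agent.Y715.Z

variable {K : Type} [Field K] [NumberField K]

variable {ι : Type} [DecidableEq ι] {pr : ι → ZI}

variable (e : ZI ≃+* 𝓞 K)

lemma XXR_zero (hp : PF pr) {V : Finset ι} {ex : ι → ℕ} (h4 : ∀ i ∈ V, ex i % 4 ≠ 0)
    (hW : Wt pr V ex % 4 = 3) {z : ZI} (h : z = pi1 ∨ ∃ i ∈ V, pr i ∣ z) : XX4 hp V ex z = 0 := by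
  by_contra hne
  have h5 := (cop_cn4 hp V z).1 (((XX4_HC hp hW h4).supp z).1 hne)
  rcases h with h | ⟨i, hi, h⟩
  · rw [h] at h5
    exact absurd h5.1 (by decide)
  · exact h5.2 i hi h

/-- the local factors -/
theorem locR (hp : PF pr) {V : Finset ι} {ex : ι → ℕ} (h4 : ∀ i ∈ V, ex i % 4 ≠ 0)
    (hW : Wt pr V ex % 4 = 3) (v : HeightOneSpectrum (𝓞 K)) (s : ℂ) :
    HBd (aV (q4 (em0 e (DE pr V ex))) v) (eV (q4 (em0 e (DE pr V ex))) v) (nm v) ∧
      (1 - (aV (q4 (em0 e (DE pr V ex))) v : ℂ) * (nm v : ℂ) ^ (-s) +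
        (eV (q4 (em0 e (DE pr V ex))) v : ℂ) * ((nm v : ℂ) ^ (-s)) ^ 2)⁻¹ =
      g1 (XX4 hp V ex) e s v * g2 (XX4 hp V ex) e s v := by
  have hsp := pg_span e v
  set z := pg e v with hz
  have hzp : Prime z := pg_prime e v
  have hodd : (below v : ℕ) ≠ 2 → z ∈ Ip (below v) → PP z := fun h1 h2 =>
    ⟨(Ip_spec (below v).2 h2).2.1, (Ip_spec (below v).2 h2).1⟩
  have hmem0 : em0 e (DE pr V ex) = ((e (DE pr V ex) : 𝓞 K) : K) := rfl
  have hzero : (aV (q4 (em0 e (DE pr V ex))) v = 0 ∧ eV (q4 (em0 e (DE pr V ex))) v = 0) →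
      XX4 hp V ex z = 0 → HBd (aV (q4 (em0 e (DE pr V ex))) v) (eV (q4 (em0 e (DE pr V ex))) v) (nm v) ∧
      (1 - (aV (q4 (em0 e (DE pr V ex))) v : ℂ) * (nm v : ℂ) ^ (-s) +
        (eV (q4 (em0 e (DE pr V ex))) v : ℂ) * ((nm v : ℂ) ^ (-s)) ^ 2)⁻¹ =
      g1 (XX4 hp V ex) e s v * g2 (XX4 hp V ex) e s v := by
    intro h0 hX
    refine ⟨Or.inl h0, ?_⟩
    unfold g1 g2
    rw [h0.1, h0.2, ← hz, hX]
    simp
  rcases pg_cases e v with ⟨h1, h2⟩ | ⟨h1, h2⟩
  · -- the place above two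
    refine hzero ?_ (XXR_zero hp h4 hW (Or.inl h2))
    obtain ⟨hre, him⟩ := DE_comp hp hW
    obtain ⟨a, b, hab⟩ := DE_int hre him (e : ZI →+* 𝓞 K)
    have hv : v = plc e pi1_prime := by
      apply HeightOneSpectrum.ext
      rw [hsp, hz, h2]
      rfl
    rw [hmem0]
    refine bad_two (I := e im1) ?_ ?_ (a := a) (b := b) hab
    · rw [← map_pow]
      have : (im1 : ZI) ^ 2 = -1 := by decide
      rw [this, map_neg, map_one]
    · rw [hv]; exact val_two1 e
  · have hPP := hodd h1 h2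
    by_cases hb : z ∣ DE pr V ex
    · -- the places of the primes `π_i`
      obtain ⟨i, hi, hzi⟩ : ∃ i ∈ V, z = pr i := by
        unfold DE at hb
        obtain ⟨i, hi, hzi⟩ := (hzp.dvd_finsetProd_iff _).1 hb
        exact ⟨i, hi, hPP.eq_of_dvd (hp.pp i) (hzp.dvd_of_dvd_pow hzi)⟩
      refine hzero ?_ (XXR_zero hp h4 hW (Or.inr ⟨i, hi, by rw [hzi]⟩))
      have hv : v = plc e hzp := by
        apply HeightOneSpectrum.ext
        rw [hsp]
        rfl
      have h2' : v.valuation K 2 = 1 := by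
        have h3 := val_one (K := K) e hzp (not_dvd_two hPP)
        rw [map_ofNat] at h3
        rw [hv]; exact h3
      refine bad_odd (m := (ex i : ℤ)) h2' ?_ (by have := h4 i hi; omega)
      have h3 : DE pr V ex = z ^ ex i * DE pr (V.erase i) ex := by
        unfold DE
        rw [hzi]
        exact (Finset.mul_prod_erase V (fun i => pr i ^ ex i) hi).symm
      have h4' : ¬ z ∣ DE pr (V.erase i) ex := by
        intro h
        unfold DE at h
        obtain ⟨j, hj, hzj⟩ := (hzp.dvd_finsetProd_iff _).1 h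
        have h5 := hPP.eq_of_dvd (hp.pp j) (hzp.dvd_of_dvd_pow hzj)
        rw [hzi] at h5
        exact (Finset.mem_erase.1 hj).1 (hp.inj h5).symm
      rw [hv, h3, map_mul, map_mul, val_one e hzp h4', mul_one, map_pow, map_pow, val_z,
        ← WithZero.exp_nsmul]
      congr 1
      simp
    · -- the good places
      have hgd : (2 : 𝓞 K) * e (DE pr V ex) ∉ v.asIdeal := by
        intro h
        have h3 : (2 : 𝓞 K) * e (DE pr V ex) = e (2 * DE pr V ex) := by rw [map_mul, map_ofNat]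
        rw [h3, mem_iff e hsp] at h
        rcases hzp.dvd_or_dvd h with h5 | h5
        · exact not_dvd_two hPP h5
        · exact hb h5
      obtain ⟨ha, hE⟩ := good_place hgd
      rw [hmem0, ha, hE]
      have hne : ∀ i ∈ V, z ≠ pr i := by
        intro i hi h
        apply hb
        rw [h]
        unfold DE
        exact (dvd_pow_self (pr i) (by have := h4 i hi; omega)).trans
          (Finset.dvd_prod_of_mem (fun i => pr i ^ ex i) hi)
      have hrec := recE (JJ_of e) hp (e := ex) (by omega) hPP hne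
      have h3 := congrArg tc (cnt4_good e hPP hsp hb)
      rw [tc_int, tc_add] at h3
      have hnd : ¬ z ∣ -(DE pr V ex) := fun h => hb ((dvd_neg).1 h)
      have hnm : nm v = Ideal.absNorm v.asIdeal := rfl
      set q : ZI := Pool.Agent.Y699.q4 z (-(DE pr V ex)) with hq
      have h4q : tc q * (starRingEnd ℂ) (tc q) = 1 := by
        rw [← tc_star, ← tc_mul, unit_star_mul (q4_norm hPP hnd), tc_one]
      have h5 : tc z * tc (star z) = ((Ideal.absNorm v.asIdeal : ℕ) : ℂ) := by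
        rw [norm_pg e hsp, ← tc_mul, ← Zsqrtd.norm_eq_mul_conj, ← nrm_cast]
        unfold tc
        simp
      have h7 : tc (star q) = (starRingEnd ℂ) (tc q) := tc_star _
      constructor
      · refine Or.inr ⟨tc (star q * z), ?_, ?_, ?_⟩
        · rw [hnm, h3, ← tc_star, star_mul, star_star, mul_comm (star z) q]
        · rw [hnm, ← tc_star, star_mul, star_star, tc_mul, tc_mul, tc_star q]
          push_cast
          linear_combination (-((Ideal.absNorm v.asIdeal : ℕ) : ℂ)) * h4q -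
            (tc q * (starRingEnd ℂ) (tc q)) * h5
        · rw [hnm, ← tc_star, star_mul, star_star, tc_mul, tc_mul, tc_star q]
          linear_combination (((Ideal.absNorm v.asIdeal : ℕ) : ℂ)) * h4q +
            (tc q * (starRingEnd ℂ) (tc q)) * h5
      · unfold g1 g2
        rw [← hz, XX4_prim hp V ex hPP.prm, ← hrec, ← mul_inv, Complex.conj_conj]
        congr 1
        rw [hnm, h3, tc_mul, tc_mul, h7]
        push_cast
        linear_combination (-(((Ideal.absNorm v.asIdeal : ℕ) : ℂ) ^ (-s)) ^ 2) * h5 -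
          (tc z * tc (star z)) * (((Ideal.absNorm v.asIdeal : ℕ) : ℂ) ^ (-s)) ^ 2 * h4q


/-- the data of the family: `O` the primes of the curve, the other primes of `V` are inert in the
sense of the quadratic symbol -/
structure Dat (pr : ι → ZI) (V O : Finset ι) : Prop where
  pf : PF pr
  sub : O ⊆ V
  wt1 : ∑ i ∈ O, wt pr i = 1
  ker : ∀ z : ι → ZMod 2, (∀ v ∈ O, ∑ u ∈ O, em pr u v * (z u + z v) = 0) →
      ∀ u ∈ O, ∀ v ∈ O, z u = z v
  non : ∀ i ∈ V \ O, ∀ x : ZI, ¬ pr i ∣ x ^ 2 - DD pr O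

/-- the admissible exponents -/
def Adm (pr : ι → ZI) (V O : Finset ι) (ex : ι → ℕ) : Prop :=
  (∀ i ∈ V, ex i % 2 = 1 ↔ i ∈ O) ∧ Wt pr V ex % 4 = 3

lemma Adm.od {V O : Finset ι} {ex : ι → ℕ} (hO : O ⊆ V) (h : Adm pr V O ex) : Od V ex = O := by
  ext i
  unfold Od
  rw [Finset.mem_filter]
  exact ⟨fun h' => (h.1 i h'.1).1 h'.2, fun h' => ⟨hO h', (h.1 i (hO h')).2 h'⟩⟩

/-- the places above two are bad over every extension in which they are not ramified -/
lemma bad2 {F : Type} [Field F] [NumberField F] {γ : ZI →+* 𝓞 F} (hp : PF pr) {V : Finset ι}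
    {ex : ι → ℕ} (hW : Wt pr V ex % 4 = 3)
    (h2 : ∀ P : HeightOneSpectrum (𝓞 F), (2 : 𝓞 F) ∈ P.asIdeal →
      P.valuation F 2 = WithZero.exp (-2 : ℤ)) :
    Bad2 ((γ (DE pr V ex) : 𝓞 F) : F) := by
  intro P h
  obtain ⟨hre, him⟩ := DE_comp hp hW
  obtain ⟨a, b, hab⟩ := DE_int hre him γ
  refine bad_two (I := γ im1) ?_ (h2 P h) (a := a) (b := b) hab
  rw [← map_pow]
  have : (im1 : ZI) ^ 2 = -1 := by decide
  rw [this, map_neg, map_one]

include e in
lemma base_two (P : HeightOneSpectrum (𝓞 K)) (hP : (2 : 𝓞 K) ∈ P.asIdeal) :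
    P.valuation K 2 = WithZero.exp (-2 : ℤ) := by
  have h2 : e pi1 ∈ P.asIdeal := by
    have h : (2 : ZI) = pi1 ^ 2 * (-im1) := by decide
    have h1 : (2 : 𝓞 K) = e pi1 ^ 2 * e (-im1) := by
      rw [← map_pow, ← map_mul, ← h, map_ofNat]
    rw [h1] at hP
    rcases P.isPrime.mem_or_mem hP with h3 | h3
    · exact P.isPrime.mem_of_pow_mem 2 h3
    · exfalso
      apply P.isPrime.ne_top
      refine Ideal.eq_top_of_isUnit_mem _ h3 ?_
      refine IsUnit.map e ?_
      refine IsUnit.of_mul_eq_one im1 ?_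
      decide
  have h3 : P = plc e pi1_prime := by
    have h1 := pg_span e P
    have h4 : pg e P ∣ pi1 := (mem_iff e h1 pi1).1 h2
    have h5 : Associated (pg e P) pi1 := (pg_prime e P).associated_of_dvd pi1_prime h4
    apply HeightOneSpectrum.ext
    rw [h1]
    show _ = Ideal.span {e pi1}
    rw [Ideal.span_singleton_eq_span_singleton]
    exact h5.map e
  rw [h3]
  exact val_two1 e

variable [Fintype ι]

/-- the base field, exponents not divisible by four -/
theorem base4 {V O : Finset ι} (H : Dat pr V O) {ex : ι → ℕ} (hA : Adm pr V O ex)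
    (h4 : ∀ i ∈ V, ex i % 4 ≠ 0) : Con (em0 e (DE pr V ex)) := by
  have hp := H.pf
  have hOd : Od V ex = O := hA.od H.sub
  have hW := hA.2
  have hne : em0 e (DE pr V ex) ≠ 0 := em0_ne e (DE_ne hp V ex)
  have hR : ∀ i ∈ V \ Od V ex, ∑ u ∈ Od V ex, em pr u i = 1 := by
    intro i hi
    rw [hOd] at hi ⊢
    have hiO : i ∉ O := (Finset.mem_sdiff.1 hi).2
    have h1 : qr (pr i) (DD pr O) = -1 := by
      unfold qr
      rw [if_neg, if_neg]
      · rintro ⟨b, hb⟩
        apply H.non i hi b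
        have e1 : b ^ 2 - DD pr O = -(DD pr O - b ^ 2) := by ring
        rw [e1, dvd_neg]
        exact hb
      · exact DD_dvd hp hiO
    rw [qr_DD_sg hp O hiO] at h1
    have hsg : ∀ a : ZMod 2, sg a = -1 → a = 1 := by decide
    exact hsg _ h1
  constructor
  · rw [sol_finite hne]
    let _ : Algebra ZI K := ((algebraMap (𝓞 K) K).comp (e : ZI →+* 𝓞 K)).toAlgebra
    have _ : IsFractionRing ZI K := IsFractionRing.of_ringEquiv_left e (fun _ => rfl)
    obtain ⟨hre, him⟩ := DE_comp hp hW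
    have hDE := DE_eqR (pr := pr) V ex
    rw [hOd] at hDE
    rw [hDE] at hre him
    have hprim := DE_prim hp V ex
    rw [hDE] at hprim
    have hy0 : ∀ x y : K, y ^ 2 = x ^ 3 + em0 e (DE pr V ex) * x → y = 0 := by
      intro x y hxy
      refine no_pointsR (F := K) hp H.wt1 (TE_ne hp V ex) ?_ hprim hre him H.ker (x := x) ?_
      · intro ρ hρ h
        unfold TE at h
        obtain ⟨i, hi, h1⟩ := (hρ.dvd_finsetProd_iff _).1 h
        have h2 : ρ ∣ pr i := hρ.dvd_of_dvd_pow h1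
        by_cases hiO : i ∈ O
        · exact Or.inl (h2.trans (dvd_DD hiO))
        · right
          intro w hw
          have h3 : Associated ρ (pr i) := hρ.associated_of_dvd (hp.pp i).pr h2
          exact H.non i (Finset.mem_sdiff.2 ⟨hi, hiO⟩) w (h3.symm.dvd.trans hw)
      · rw [← hDE]
        exact hxy
    have hroots : {x : K | x ^ 3 + em0 e (DE pr V ex) * x = 0}.Finite := by
      set δ' := em0 e (DE pr V ex)
      have h3 : (Polynomial.X ^ 3 + Polynomial.C δ' * Polynomial.X : Polynomial K) ≠ 0 := by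
        intro h4
        have h5 := congrArg (fun p => Polynomial.eval 1 p) h4
        have h7 := congrArg (fun p => Polynomial.eval 2 p) h4
        simp at h5 h7
        have h8 : (6 : K) = 0 := by linear_combination h7 - 2 * h5
        norm_num at h8
      refine (Polynomial.finite_setOf_isRoot h3).subset fun x hx => ?_
      simp only [Set.mem_setOf_eq, Polynomial.IsRoot.def, Polynomial.eval_add, Polynomial.eval_pow,
        Polynomial.eval_X, Polynomial.eval_mul, Polynomial.eval_C] at hx ⊢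
      exact hx
    refine (hroots.image (fun x => (x, (0 : K)))).subset ?_
    rintro ⟨x, y⟩ hxy
    have h4 : y ^ 2 = x ^ 3 + em0 e (DE pr V ex) * x := hxy
    have hy := hy0 x y h4
    subst hy
    refine ⟨x, ?_, rfl⟩
    show x ^ 3 + em0 e (DE pr V ex) * x = 0
    rw [← h4]; ring
  · have HX := XX4_HC hp hW h4
    refine ⟨LG (XX4 hp V ex), LG_diff HX, LG_one (LH_neR hp h4 hW (by rw [hOd]; exact H.ker) hR),
      fun s hs => ?_⟩
    obtain ⟨-, h2⟩ := LSeries_hasProd' (q4 (em0 e (DE pr V ex))) (fun v => (locR e hp h4 hW v s).1) hs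
    have h3 := (g1_hasProd HX (XXE_pi1 hp V ex) e hs).mul (g2_hasProd HX (XXE_pi1 hp V ex) e hs)
    exact h3.unique (h2.congr_fun fun v => ((locR e hp h4 hW v s).2).symm)

/-- **the base field** -/
theorem baseR {V O : Finset ι} (H : Dat pr V O) {ex : ι → ℕ} (hA : Adm pr V O ex) :
    Con ((e (DE pr V ex) : 𝓞 K) : K) := by
  have hp := H.pf
  set V' := V.filter (fun i => ex i % 4 ≠ 0) with hV'
  have hsub : V' ⊆ V := Finset.filter_subset _ _
  have hOV : O ⊆ V' := by
    intro i hi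
    rw [hV', Finset.mem_filter]
    have := (hA.1 i (H.sub hi)).2 hi
    exact ⟨H.sub hi, by omega⟩
  have H' : Dat pr V' O := ⟨hp, hOV, H.wt1, H.ker, fun i hi => H.non i (Finset.mem_sdiff.2
    ⟨hsub (Finset.mem_sdiff.1 hi).1, (Finset.mem_sdiff.1 hi).2⟩)⟩
  have hWW : Wt pr V ex % 4 = Wt pr V' ex % 4 := by
    have h1 : Wt pr V ex = Wt pr V' ex + ∑ i ∈ V.filter (fun i => ¬ ex i % 4 ≠ 0), ex i * wq (pr i) := by
      unfold Wt
      rw [hV', Finset.sum_filter_add_sum_filter_not]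
    have h2 : 4 ∣ ∑ i ∈ V.filter (fun i => ¬ ex i % 4 ≠ 0), ex i * wq (pr i) := by
      refine Finset.dvd_sum fun i hi => ?_
      have h3 := (Finset.mem_filter.1 hi).2
      exact Dvd.dvd.mul_right (by omega) _
    omega
  have hA' : Adm pr V' O ex := ⟨fun i hi => hA.1 i (hsub hi), by rw [← hWW]; exact hA.2⟩
  have h4 : ∀ i ∈ V', ex i % 4 ≠ 0 := fun i hi => (Finset.mem_filter.1 hi).2
  have hc := base4 e H' hA' h4
  set T : ZI := ∏ i ∈ V.filter (fun i => ¬ ex i % 4 ≠ 0), pr i ^ (ex i / 4) with hT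
  have hDE : DE pr V ex = DE pr V' ex * T ^ 4 := by
    have h1 : T ^ 4 = ∏ i ∈ V.filter (fun i => ¬ ex i % 4 ≠ 0), pr i ^ ex i := by
      rw [hT, ← Finset.prod_pow]
      refine Finset.prod_congr rfl fun i hi => ?_
      have h3 := (Finset.mem_filter.1 hi).2
      rw [← pow_mul]
      congr 1
      omega
    rw [h1]
    unfold DE
    rw [hV', Finset.prod_filter_mul_prod_filter_not]
  have hT0 : T ≠ 0 := Finset.prod_ne_zero_iff.2 fun i _ => pow_ne_zero _ (hp.pp i).ne
  have hTK : em0 e T ≠ 0 := em0_ne e hT0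
  have hDK : em0 e (DE pr V' ex) ≠ 0 := em0_ne e (DE_ne hp V' ex)
  have hb1 : Bad2 (em0 e (DE pr V' ex)) := bad2 (γ := (e : ZI →+* 𝓞 K)) hp hA'.2 (base_two e)
  have e1 : em0 e (DE pr V ex) = em0 e (DE pr V' ex) * em0 e T ^ 4 := by
    rw [hDE, map_mul, map_pow]
  have hb2 : Bad2 (em0 e (DE pr V' ex) * em0 e T ^ 4) := by
    rw [← e1]
    exact bad2 (γ := (e : ZI →+* 𝓞 K)) hp hA.2 (base_two e)
  have h5 := con_scale hDK hTK hb1 hb2 hc
  rw [← e1] at h5
  exact h5

end Pool.Agent.L7h3.MR
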